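import Pool.Agent.U955.EM.Run

/-!
# The embedding
-/

set_option autoImplicit false

namespace Pool.Agent.U955.EM

open Filter Set Cardinal Pool.Agent.R595.Kun Pool.Agent.R595.WP

section

variable {I : Type} {𝒜 : Set (Ax I)}

/-- the ultrafilter of the first `n` members of the sequence `y` -/
noncomputable def uu (hne : ∀ y, (Fr 𝒜 y).NeBot) (y : ℕ → I) (n : ℕ) : Ultrafilter ℕ :=
  haveI := hne y
  Ultrafilter.of (map (code n) (Fr 𝒜 y))

variable {hne : ∀ y, (Fr 𝒜 y).NeBot} {bit : I → Set ℕ → Prop}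

theorem mem_uu_of {y : ℕ → I} {n : ℕ} {W : Set ℕ} (h : code n ⁻¹' W ∈ Fr 𝒜 y) :
    W ∈ uu hne y n := by
  haveI := hne y
  exact Ultrafilter.of_le (map (code n) (Fr 𝒜 y)) h

theorem mem_uu (hres : ∀ t : Tk, Res bit t 𝒜) {y : ℕ → I} {n : ℕ} {W : Set ℕ} :
    W ∈ uu hne y n ↔ code n ⁻¹' W ∈ Fr 𝒜 y := by
  refine ⟨fun h => ?_, mem_uu_of⟩
  obtain ⟨κ, _, h2⟩ := hres (Tk.dec n fun _ => W) 0
  by_cases hc : κ y
  · exact (h2 y).1 hc
  · exact absurd h (Ultrafilter.compl_mem_iff_notMem.1 (mem_uu_of ((h2 y).2 hc)))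

theorem uu_congr (hres : ∀ t : Tk, Res bit t 𝒜) {y y' : ℕ → I} {n : ℕ}
    (hy : ∀ k < n, y k = y' k) : uu hne y n = uu hne y' n := by
  apply eq_of_le
  intro W hW
  obtain ⟨κ, h1, h2⟩ := hres (Tk.dec n fun _ => W) 0
  by_cases hc : κ y
  · exact mem_uu_of ((h2 y').1 ((h1 y y' hy).1 hc))
  · exact absurd hW (Ultrafilter.compl_mem_iff_notMem.1 (mem_uu_of ((h2 y).2 hc)))

theorem uu_cofinite (y : ℕ → I) (n : ℕ) : (uu hne y n : Filter ℕ) ≤ cofinite := by
  rw [le_cofinite_iff_compl_singleton_mem]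
  intro w
  by_cases hw : ∃ b, code n b = w
  · obtain ⟨b, hb⟩ := hw
    refine mem_uu_of (Filter.mem_of_superset (Mo_mem (b ∅ + 1) y) ?_)
    rintro a ⟨_, ha⟩ haw
    have h1 : code n a = code n b := by
      rw [hb]
      exact haw
    have h2 := code_eq.1 h1 ∅ (Finset.empty_subset _)
    omega
  · refine mem_uu_of (Filter.mem_of_superset Filter.univ_mem ?_)
    intro a _ haw
    exact hw ⟨a, haw⟩

theorem uu_ok (hres : ∀ t : Tk, Res bit t 𝒜) (y : ℕ → I) (n : ℕ) (C : ℕ → Set ℕ)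
    (hC : Antitone C) (hCu : ∀ k, C k ∈ uu hne y n) : OKFor (uu hne y n : Filter ℕ) C := by
  rcases hres (Tk.ok n C) hC y with ⟨k, hk⟩ | ⟨E, h1, h2⟩
  · exact absurd (hCu k) (Ultrafilter.compl_mem_iff_notMem.1 (mem_uu_of hk))
  · exact ⟨E, fun γ => mem_uu_of (h1 γ), h2⟩

theorem uu_weakP (hres : ∀ t : Tk, Res bit t 𝒜) (y : ℕ → I) (n : ℕ) : WeakP (uu hne y n) :=
  weakP_of_ok (uu_cofinite y n) (uu_ok hres y n)

theorem uu_rk (hres : ∀ t : Tk, Res bit t 𝒜) {y y' : ℕ → I} {n n' : ℕ} {g : ℕ → ℕ}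
    (hg : StrictMono g) (hy : ∀ k < n, y k = y' (g k)) (hn : ∀ k < n, g k < n') :
    RK (uu hne y n) (uu hne y' n') := by
  classical
  let f : ℕ → ℕ := fun w => if h : ∃ a, code n' a = w then code n (Phi g h.choose) else 0
  have hf : ∀ a, f (code n' a) = code n (Phi g a) := by
    intro a
    have h : ∃ b, code n' b = code n' a := ⟨a, rfl⟩
    simp only [f, dif_pos h]
    rw [code_eq]
    intro s hs
    refine (code_eq.1 h.choose_spec) (s.image g) ?_
    intro q hq
    obtain ⟨k, hk, rfl⟩ := Finset.mem_image.1 hq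
    exact Finset.mem_range.2 (hn k (Finset.mem_range.1 (hs hk)))
  refine ⟨f, ?_⟩
  rw [uu_congr hres (y := y) (y' := y' ∘ g) hy]
  symm
  apply eq_of_le
  intro S hS
  rw [mem_uu hres] at hS
  rw [Pool.Agent.R595.WP.mem_map']
  apply mem_uu_of
  have h1 := tendsto_Phi (𝒜 := 𝒜) (y := y' ∘ g) (y' := y') hg (fun _ => rfl) hS
  refine Filter.mem_of_superset h1 ?_
  intro a ha
  have h2 : code n (Phi g a) ∈ S := ha
  rw [← hf a] at h2
  exact h2

theorem uu_sep (hres : ∀ t : Tk, Res bit t 𝒜) (hbit : ∀ x z : I, (∀ j, bit x j ↔ bit z j) → x = z)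
    {y : ℕ → I} {n : ℕ} {z : ℕ → I} (hz : ∀ k < n, y k ≠ z 0) :
    ¬ RK (uu hne z 1) (uu hne y n) := by
  classical
  rintro ⟨f, hf⟩
  have hj : ∀ k, ∃ j, k < n → ¬ (bit (y k) j ↔ bit (z 0) j) := by
    intro k
    by_cases hk : k < n
    · by_contra hcon
      push Not at hcon
      exact hz k hk (hbit _ _ fun j => (hcon j).2)
    · exact ⟨∅, fun h => absurd h hk⟩
  choose j hj using hj
  let d0 : ℕ → ℕ := fun w => if h : ∃ b, code 1 b = w then (h.choose : Asg) {0} else 0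
  have hd0 : ∀ b, d0 (code 1 b) = b {0} := by
    intro b
    have h : ∃ b', code 1 b' = code 1 b := ⟨b, rfl⟩
    simp only [d0, dif_pos h]
    exact (code_eq.1 h.choose_spec) {0} (by simp)
  have hmap : ∀ S : Set ℕ, f ⁻¹' S ∈ uu hne y n ↔ S ∈ uu hne z 1 := by
    intro S
    rw [← hf, Pool.Agent.R595.WP.mem_map']
  obtain ⟨L, hL⟩ := hres (Tk.sep n j {k | bit (y k) (j k)} (d0 ∘ f))
  rcases hL y (fun k _ => Iff.rfl) with ⟨N, hN⟩ | ⟨h1, h2⟩
  · have h3 : {w | d0 w ≤ N} ∈ uu hne z 1 := by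
      rw [← hmap]
      exact mem_uu_of hN
    have h4 : {w | N < d0 w} ∈ uu hne z 1 := by
      apply mem_uu_of
      refine Filter.mem_of_superset (Mo_mem (N + 1) z) ?_
      rintro b ⟨hb1, hb2⟩
      show N < d0 (code 1 b)
      rw [hd0]
      have h5 : b ∅ ≤ b {0} := hb1 (Finset.empty_subset _)
      omega
    obtain ⟨w, hw1, hw2⟩ := Ultrafilter.nonempty_of_mem (Filter.inter_mem h3 h4)
    have hw1' : d0 w ≤ N := hw1
    have hw2' : N < d0 w := hw2
    omega
  · have h3 : {w | d0 w ∉ L} ∈ uu hne z 1 := by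
      rw [← hmap]
      exact mem_uu_of h1
    have h4 : {w | d0 w ∈ L} ∈ uu hne z 1 := by
      apply mem_uu_of
      refine Filter.mem_of_superset (h2 z ?_) ?_
      · intro k hk hcon
        exact hj k hk hcon.symm
      · intro b hb
        show d0 (code 1 b) ∈ L
        rw [hd0]
        exact hb
    obtain ⟨w, hw1, hw2⟩ := Ultrafilter.nonempty_of_mem (Filter.inter_mem h3 h4)
    exact hw1 hw2

end

/-- **The embedding** of the finite subsets of a set of points with `𝔠` bits. -/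
theorem exists_embedding (I : Type) [Nonempty I] [LinearOrder I] (bit : I → Set ℕ → Prop)
    (hbit : ∀ x z : I, (∀ j, bit x j ↔ bit z j) → x = z) :
    ∃ e : Finset I → Ultrafilter ℕ, (∀ X, WeakP (e X)) ∧ ∀ X Y, X ⊆ Y ↔ RK (e X) (e Y) := by
  classical
  obtain ⟨𝒜, hne, hres⟩ := exists_system bit
  obtain ⟨x0⟩ := (inferInstance : Nonempty I)
  let yy : Finset I → ℕ → I := fun X k =>
    if h : k < X.card then X.orderEmbOfFin rfl ⟨k, h⟩ else x0
  have hyy : ∀ (X : Finset I) (k : ℕ) (h : k < X.card), yy X k = X.orderEmbOfFin rfl ⟨k, h⟩ :=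
    fun X k h => dif_pos h
  have hmem : ∀ (X : Finset I) (k : ℕ), k < X.card → yy X k ∈ X := by
    intro X k h
    rw [hyy X k h]
    exact Finset.orderEmbOfFin_mem _ _ _
  have hsub : ∀ X Y : Finset I, X ⊆ Y → RK (uu hne (yy X) X.card) (uu hne (yy Y) Y.card) := by
    intro X Y hXY
    have hp : ∀ k, ∃ p, k < X.card → p < Y.card ∧ yy X k = yy Y p := by
      intro k
      by_cases hk : k < X.card
      · have h1 : yy X k ∈ (Y : Set I) := hXY (hmem X k hk)
        rw [← Finset.range_orderEmbOfFin Y rfl] at h1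
        obtain ⟨p, hp⟩ := h1
        exact ⟨p, fun _ => ⟨p.2, by rw [hyy Y p p.2]; exact hp.symm⟩⟩
      · exact ⟨0, fun h => absurd h hk⟩
    choose p hp using hp
    let g : ℕ → ℕ := fun k => if k < X.card then p k else Y.card + k
    have hg1 : ∀ k < X.card, g k = p k := fun k hk => if_pos hk
    have hg2 : ∀ k, ¬ k < X.card → g k = Y.card + k := fun k hk => if_neg hk
    have hg : StrictMono g := by
      intro k k' hkk
      by_cases hk' : k' < X.card
      · have hk : k < X.card := hkk.trans hk'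
        rw [hg1 k hk, hg1 k' hk']
        obtain ⟨q1, q2⟩ := hp k hk
        obtain ⟨q1', q2'⟩ := hp k' hk'
        have h1 : yy X k < yy X k' := by
          rw [hyy X k hk, hyy X k' hk']
          exact (X.orderEmbOfFin rfl).strictMono hkk
        rw [q2, q2', hyy Y _ q1, hyy Y _ q1'] at h1
        exact (Y.orderEmbOfFin rfl).lt_iff_lt.1 h1
      · rw [hg2 k' hk']
        by_cases hk : k < X.card
        · rw [hg1 k hk]
          have := (hp k hk).1
          omega
        · rw [hg2 k hk]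
          omega
    refine uu_rk hres hg ?_ ?_
    · intro k hk
      rw [hg1 k hk]
      exact (hp k hk).2
    · intro k hk
      rw [hg1 k hk]
      exact (hp k hk).1
  refine ⟨fun X => uu hne (yy X) X.card, fun X => uu_weakP hres _ _, fun X Y => ⟨hsub X Y, ?_⟩⟩
  intro hXY z hzX
  by_contra hzY
  have h1 : RK (uu hne (yy {z}) ({z} : Finset I).card) (uu hne (yy Y) Y.card) :=
    rk_trans (hsub {z} X (Finset.singleton_subset_iff.2 hzX)) hXY
  rw [Finset.card_singleton] at h1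
  refine uu_sep hres hbit ?_ h1
  intro k hk h2
  have h3 : yy {z} 0 ∈ ({z} : Finset I) := hmem {z} 0 (by simp)
  rw [Finset.mem_singleton] at h3
  apply hzY
  rw [← h3, ← h2]
  exact hmem Y k hk

end Pool.Agent.U955.EM
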