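import Pool.Agent.R595.Kunen

/-!
# Assignments of numbers to finite sets of positions, axioms and strong independence
-/

set_option autoImplicit false

namespace Pool.Agent.U955.EM

open Filter Set Cardinal Pool.Agent.R595.Kun

/-- one number for each finite set of positions -/
abbrev Asg : Type := Finset ℕ → ℕ

/-- restriction to the positions `h 0, h 1, ...` -/
def Phi (h : ℕ → ℕ) (a : Asg) : Asg := fun s => a (s.image h)

theorem Phi_comp (g h : ℕ → ℕ) (a : Asg) : Phi h (Phi g a) = Phi (g ∘ h) a := by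
  funext s
  simp [Phi, Finset.image_image]

/-- the code of the part of `a` living on the first `n` positions -/
noncomputable def code (n : ℕ) (a : Asg) : ℕ :=
  Encodable.encode ((Finset.range n).powerset.toList.map a)

theorem code_eq {n : ℕ} {a b : Asg} : code n a = code n b ↔ ∀ s ⊆ Finset.range n, a s = b s := by
  unfold code
  rw [Encodable.encode_inj, List.map_inj_left]
  simp only [Finset.mem_toList, Finset.mem_powerset]

theorem image_congr_range {n : ℕ} {h h' : ℕ → ℕ} (hh : ∀ k < n, h k = h' k) {s : Finset ℕ}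
    (hs : s ⊆ Finset.range n) : s.image h = s.image h' :=
  Finset.image_congr fun k hk => hh k (Finset.mem_range.1 (hs hk))

theorem code_Phi_congr {n : ℕ} {h h' : ℕ → ℕ} (hh : ∀ k < n, h k = h' k) (a : Asg) :
    code n (Phi h a) = code n (Phi h' a) := by
  rw [code_eq]
  intro s hs
  simp only [Phi]
  rw [image_congr_range hh hs]

variable {I : Type}

/-- an axiom (a family of conditions indexed by the subsets of `ℕ`): a class of `n`-tuples, and
the sets which have to contain the code, inside and outside of the class -/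
structure Ax (I : Type) where
  n : ℕ
  c : (ℕ → I) → Prop
  hc : ∀ y y' : ℕ → I, (∀ k < n, y k = y' k) → (c y ↔ c y')
  W : Set ℕ → Set ℕ
  V : Set ℕ

/-- `a` satisfies the axiom at the sequence `y` -/
def Ax.sat (x : Ax I) (γ : Set ℕ) (y : ℕ → I) (a : Asg) : Prop :=
  (x.c y → code x.n a ∈ x.W γ) ∧ (¬ x.c y → code x.n a ∈ x.V)

/-- all axioms of `B` hold for all subsequences inside the first `m` positions -/
def HH (B : Finset (Ax I)) (G : Finset (Set ℕ)) (m : ℕ) (y : ℕ → I) : Set Asg :=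
  {a | ∀ x ∈ B, ∀ γ ∈ G, ∀ h : ℕ → ℕ, StrictMono h → (∀ k < x.n, h k < m) →
    x.sat γ (y ∘ h) (Phi h a)}

theorem HH_mono {B B' : Finset (Ax I)} {G G' : Finset (Set ℕ)} (hB : B ⊆ B') (hG : G ⊆ G')
    (m : ℕ) (y : ℕ → I) : HH B' G' m y ⊆ HH B G m y :=
  fun _ ha x hx γ hγ h hh hm => ha x (hB hx) γ (hG hγ) h hh hm

theorem HH_lift {B : Finset (Ax I)} {G : Finset (Set ℕ)} {m m' : ℕ} {y y' : ℕ → I} {g : ℕ → ℕ}
    (hg : StrictMono g) (hy : ∀ k < m, y k = y' (g k)) (hm : ∀ k < m, g k < m') {a : Asg}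
    (ha : a ∈ HH B G m' y') : Phi g a ∈ HH B G m y := by
  intro x hx γ hγ h hh hhm
  have h1 := ha x hx γ hγ (g ∘ h) (hg.comp hh) (fun k hk => hm _ (hhm k hk))
  rw [Phi_comp]
  have h2 : x.c (y ∘ h) ↔ x.c (y' ∘ g ∘ h) := x.hc _ _ fun k hk => hy _ (hhm k hk)
  refine ⟨fun hc => h1.1 (h2.1 hc), fun hc => h1.2 (fun hc' => hc (h2.2 hc'))⟩

variable {A : Set ℕ → Set ℕ → ℕ → Set ℕ}

/-- the finite patterns -/
def Pat (A : Set ℕ → Set ℕ → ℕ → Set ℕ) (N m : ℕ) (T : Finset (Set ℕ))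
    (σ : Finset ℕ → Set ℕ → Finset (Set ℕ)) : Set Asg :=
  {a | Monotone a ∧ N ≤ a ∅ ∧ ∀ s ⊆ Finset.range m, a s ∈ XX A T (σ s)}

theorem Phi_monotone {g : ℕ → ℕ} {a : Asg} (ha : Monotone a) : Monotone (Phi g a) := by
  intro s t hst
  exact ha (Finset.image_subset_image hst)

/-- lifting a pattern -/
noncomputable def lft (g : ℕ → ℕ) (m : ℕ) (σ : Finset ℕ → Set ℕ → Finset (Set ℕ)) :
    Finset ℕ → Set ℕ → Finset (Set ℕ) := by
  classical exact fun t => σ ((Finset.range m).filter fun k => g k ∈ t)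

theorem Pat_lift {N m m' : ℕ} {T : Finset (Set ℕ)} {σ : Finset ℕ → Set ℕ → Finset (Set ℕ)}
    {g : ℕ → ℕ} (hg : StrictMono g) (hm : ∀ k < m, g k < m') {a : Asg}
    (ha : a ∈ Pat A N m' T (lft g m σ)) : Phi g a ∈ Pat A N m T σ := by
  classical
  obtain ⟨h1, h2, h3⟩ := ha
  refine ⟨Phi_monotone h1, by simpa [Phi] using h2, fun s hs => ?_⟩
  have h4 : s.image g ⊆ Finset.range m' := by
    intro q hq
    obtain ⟨k, hk, rfl⟩ := Finset.mem_image.1 hq
    exact Finset.mem_range.2 (hm k (Finset.mem_range.1 (hs hk)))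
  have h5 := h3 _ h4
  have h6 : (Finset.range m).filter (fun k => g k ∈ s.image g) = s := by
    ext k
    simp only [Finset.mem_filter, Finset.mem_range, Finset.mem_image]
    constructor
    · rintro ⟨_, j, hj, hjk⟩
      exact hg.injective hjk ▸ hj
    · intro hk
      exact ⟨Finset.mem_range.1 (hs hk), k, hk, rfl⟩
  have h7 : lft g m σ (s.image g) = σ s := by
    unfold lft
    congr 1
  rw [h7] at h5
  exact h5

theorem Pat_mono {N N' m m' : ℕ} {T : Finset (Set ℕ)} {σ : Finset ℕ → Set ℕ → Finset (Set ℕ)}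
    (hN : N ≤ N') (hm : m ≤ m') : Pat A N' m' T σ ⊆ Pat A N m T σ := by
  rintro a ⟨h1, h2, h3⟩
  exact ⟨h1, hN.trans h2, fun s hs => h3 s (hs.trans (Finset.range_subset_range.2 hm))⟩

/-- strong independence -/
def SI (A : Set ℕ → Set ℕ → ℕ → Set ℕ) (𝒜 : Set (Ax I)) (D : Set (Set ℕ)) : Prop :=
  ∀ (B : Finset (Ax I)) (G : Finset (Set ℕ)) (N m : ℕ) (y : ℕ → I) (T : Finset (Set ℕ))
    (σ : Finset ℕ → Set ℕ → Finset (Set ℕ)), (B : Set (Ax I)) ⊆ 𝒜 → (∀ i ∈ T, i ∉ D) →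
    (HH B G m y ∩ Pat A N m T σ).Nonempty

/-- the pairs `(B, m)` refutes `Q` at `y` away from each finite set of indices -/
def Thick (A : Set ℕ → Set ℕ → ℕ → Set ℕ) (D : Set (Set ℕ)) (B : Finset (Ax I)) (m : ℕ)
    (y : ℕ → I) (Q : Set Asg) : Prop :=
  ∀ K : Finset (Set ℕ), ∃ (G : Finset (Set ℕ)) (N : ℕ) (T : Finset (Set ℕ))
    (σ : Finset ℕ → Set ℕ → Finset (Set ℕ)), (∀ i ∈ T, i ∉ D ∧ i ∉ K) ∧
    ∀ a ∈ HH B G m y, a ∈ Pat A N m T σ → a ∉ Q

theorem Thick.anti {D : Set (Set ℕ)} {B : Finset (Ax I)} {m : ℕ} {y : ℕ → I} {Q Q' : Set Asg}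
    (h : Thick A D B m y Q) (hQ : Q' ⊆ Q) : Thick A D B m y Q' := by
  intro K
  obtain ⟨G, N, T, σ, h1, h2⟩ := h K
  exact ⟨G, N, T, σ, h1, fun a ha ha' hq => h2 a ha ha' (hQ hq)⟩

theorem Thick.lift {D : Set (Set ℕ)} {B : Finset (Ax I)} {m m' : ℕ} {y y' : ℕ → I} {g : ℕ → ℕ}
    (hg : StrictMono g) (hy : ∀ k < m, y k = y' (g k)) (hm : ∀ k < m, g k < m') {Q : Set Asg}
    (h : Thick A D B m y Q) : Thick A D B m' y' (Phi g ⁻¹' Q) := by
  intro K
  obtain ⟨G, N, T, σ, h1, h2⟩ := h K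
  exact ⟨G, N, T, lft g m σ, h1, fun a ha ha' => h2 _ (HH_lift hg hy hm ha) (Pat_lift hg hm ha')⟩

/-- combining finitely many refutations -/
theorem combine {𝒜 : Set (Ax I)} {D : Set (Set ℕ)} {m : ℕ} {y : ℕ → I} {𝒬 : Set (Set Asg)}
    (hfin : 𝒬.Finite)
    (hth : ∀ Q ∈ 𝒬, ∃ B : Finset (Ax I), (B : Set (Ax I)) ⊆ 𝒜 ∧ Thick A D B m y Q) :
    ∃ (B : Finset (Ax I)) (G : Finset (Set ℕ)) (N : ℕ) (T : Finset (Set ℕ))
      (σ : Finset ℕ → Set ℕ → Finset (Set ℕ)), (B : Set (Ax I)) ⊆ 𝒜 ∧ (∀ i ∈ T, i ∉ D) ∧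
      ∀ a ∈ HH B G m y, a ∈ Pat A N m T σ → ∀ Q ∈ 𝒬, a ∉ Q := by
  classical
  induction 𝒬, hfin using Set.Finite.induction_on with
  | empty =>
    refine ⟨∅, ∅, 0, ∅, fun _ _ => ∅, by simp, by simp, ?_⟩
    intro a _ _ Q hQ
    exact absurd hQ (notMem_empty _)
  | @insert Q 𝒬 hQ hfin ih =>
    obtain ⟨B1, G1, N1, T1, σ1, h1, h2, h3⟩ := ih (fun Q' hQ' => hth Q' (mem_insert_of_mem _ hQ'))
    obtain ⟨B2, hB2, hth2⟩ := hth Q (mem_insert _ _)
    obtain ⟨G2, N2, T2, σ2, k1, k2⟩ := hth2 T1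
    refine ⟨B1 ∪ B2, G1 ∪ G2, max N1 N2, T2 ∪ T1,
      fun s i => if i ∈ T1 then σ1 s i else σ2 s i, ?_, ?_, ?_⟩
    · rw [Finset.coe_union]
      exact union_subset h1 hB2
    · intro i hi
      rcases Finset.mem_union.1 hi with hi | hi
      · exact (k1 i hi).1
      · exact h2 i hi
    · rintro a ha ⟨p1, p2, p3⟩ Q' hQ'
      have p4 : ∀ s ⊆ Finset.range m, a s ∈ XX A T2 (σ2 s) ∧ a s ∈ XX A T1 (σ1 s) := by
        intro s hs
        have := p3 s hs
        apply XX_union (A := A) (s := T2) (s0 := T1) (σ := σ2 s) (σ0 := σ1 s)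
          (fun i hi => (k1 i hi).2)
        convert this
      rcases hQ' with rfl | hQ'
      · exact k2 a (HH_mono Finset.subset_union_right Finset.subset_union_right m y ha)
          ⟨p1, (le_max_right _ _).trans p2, fun s hs => (p4 s hs).1⟩
      · exact h3 a (HH_mono Finset.subset_union_left Finset.subset_union_left m y ha)
          ⟨p1, (le_max_left _ _).trans p2, fun s hs => (p4 s hs).2⟩ Q' hQ'

/-- one of finitely many questions covering everything is not refuted -/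
theorem exists_notThick {𝒜 : Set (Ax I)} {D : Set (Set ℕ)} (hSI : SI A 𝒜 D) (m : ℕ) (y : ℕ → I)
    (q : Asg → Set Asg) (hq : ∀ a, a ∈ q a) (hfin : (range q).Finite) :
    ∃ a, ∀ B : Finset (Ax I), (B : Set (Ax I)) ⊆ 𝒜 → ¬ Thick A D B m y (q a) := by
  by_contra hcon
  push Not at hcon
  obtain ⟨B, G, N, T, σ, h1, h2, h3⟩ := combine (A := A) (𝒜 := 𝒜) (D := D) (m := m) (y := y) hfin
    (by
      rintro _ ⟨a, rfl⟩
      exact hcon a)
  obtain ⟨a, ha1, ha2⟩ := hSI B G N m y T σ h1 h2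
  exact h3 a ha1 ha2 (q a) ⟨a, rfl⟩ (hq a)

/-! ### finite ranges -/

theorem finite_range_of_factor {X Y Z : Type*} [Finite Z] (δ : X → Z) (F : X → Y)
    (h : ∀ x x', δ x = δ x' → F x = F x') : (range F).Finite := by
  classical
  rcases isEmpty_or_nonempty X with hX | hX
  · rw [range_eq_empty]
    exact Set.finite_empty
  · refine ((Set.finite_range (fun d : Z => F (Function.invFun δ d)))).subset ?_
    rintro _ ⟨x, rfl⟩
    exact ⟨δ x, h _ _ (Function.invFun_eq ⟨x, rfl⟩)⟩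

/-- extend a finite sequence -/
def ext0 {n m : ℕ} (g : Fin n → Fin m) : ℕ → ℕ := fun j => if hj : j < n then g ⟨j, hj⟩ else 0

theorem ext0_eq {n m : ℕ} {h : ℕ → ℕ} (hh : ∀ k < n, h k < m) :
    ∀ k < n, h k = ext0 (fun j : Fin n => (⟨h j, hh j j.2⟩ : Fin m)) k := by
  intro k hk
  simp [ext0, hk]

/-- the classes of the subsequences of `y` -/
def cls (B : Finset (Ax I)) (m : ℕ) (y : ℕ → I) : ∀ x : B, (Fin x.1.n → Fin m) → Prop :=
  fun x g => x.1.c (y ∘ ext0 g)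

theorem cls_spec {B : Finset (Ax I)} {m : ℕ} {y y' : ℕ → I} (h : cls B m y = cls B m y')
    {x : Ax I} (hx : x ∈ B) {g : ℕ → ℕ} (hg : ∀ k < x.n, g k < m) :
    x.c (y ∘ g) ↔ x.c (y' ∘ g) := by
  have h1 := congrFun (congrFun h ⟨x, hx⟩) (fun j => ⟨g j, hg j j.2⟩)
  simp only [cls] at h1
  have h2 : x.c (y ∘ g) ↔ x.c (y ∘ ext0 (fun j : Fin x.n => (⟨g j, hg j j.2⟩ : Fin m))) :=
    x.hc _ _ fun k hk => congrArg y (ext0_eq hg k hk)
  have h3 : x.c (y' ∘ g) ↔ x.c (y' ∘ ext0 (fun j : Fin x.n => (⟨g j, hg j j.2⟩ : Fin m))) :=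
    x.hc _ _ fun k hk => congrArg y' (ext0_eq hg k hk)
  rw [h2, h3, h1]

theorem HH_congr {B : Finset (Ax I)} {m : ℕ} {y y' : ℕ → I} (h : cls B m y = cls B m y')
    (G : Finset (Set ℕ)) : HH B G m y = HH B G m y' := by
  ext a
  constructor
  · intro ha x hx γ hγ g hg hgm
    have h1 := cls_spec h hx hgm
    have h2 := ha x hx γ hγ g hg hgm
    exact ⟨fun hc => h2.1 (h1.2 hc), fun hc => h2.2 (fun hc' => hc (h1.1 hc'))⟩
  · intro ha x hx γ hγ g hg hgm
    have h1 := cls_spec h hx hgm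
    have h2 := ha x hx γ hγ g hg hgm
    exact ⟨fun hc => h2.1 (h1.1 hc), fun hc => h2.2 (fun hc' => hc (h1.2 hc'))⟩

end Pool.Agent.U955.EM
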