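import Pool.Agent.U955.EM.Basic

/-!
# Small unions and the closing lemma
-/

set_option autoImplicit false

namespace Pool.Agent.U955.EM

open Filter Set Cardinal Pool.Agent.R595.Kun

variable {I : Type} {A : Set ℕ → Set ℕ → ℕ → Set ℕ}

theorem mk_finsets_le {κ : Cardinal} (hκ : ℵ₀ ≤ κ) {𝒜 : Set (Ax I)} (h𝒜 : #𝒜 ≤ κ) :
    #{B : Finset (Ax I) // (B : Set (Ax I)) ⊆ 𝒜} ≤ κ := by
  classical
  have h1 : #(List 𝒜) ≤ κ := (Cardinal.mk_list_le_max _).trans (max_le hκ h𝒜)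
  refine le_trans ?_ h1
  refine Cardinal.mk_le_of_surjective (f := fun l : List 𝒜 =>
    (⟨(l.map Subtype.val).toFinset, ?_⟩ : {B : Finset (Ax I) // (B : Set (Ax I)) ⊆ 𝒜})) ?_
  · intro x hx
    simp only [List.coe_toFinset, List.mem_map, mem_ofPred_eq] at hx
    obtain ⟨z, _, rfl⟩ := hx
    exact z.2
  · rintro ⟨B, hB⟩
    refine ⟨B.attach.toList.map (fun x => ⟨x.1, hB x.2⟩), ?_⟩
    apply Subtype.ext
    ext x
    simp

theorem small_union {κ : Cardinal} (hκ : ℵ₀ ≤ κ) {𝒜 : Set (Ax I)} (h𝒜 : #𝒜 ≤ κ)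
    (F : ℕ → ℕ → Finset (Ax I) → (ℕ → I) → Set (Set ℕ))
    (hF : ∀ K m B, (range (F K m B)).Finite) (hc : ∀ K m B y, (F K m B y).Countable) :
    #(⋃ p : ℕ × ℕ × {B : Finset (Ax I) // (B : Set (Ax I)) ⊆ 𝒜}, ⋃ y, F p.1 p.2.1 p.2.2.1 y :
      Set (Set ℕ)) ≤ κ := by
  refine (Cardinal.mk_iUnion_le _).trans ?_
  have h1 : #(ℕ × ℕ × {B : Finset (Ax I) // (B : Set (Ax I)) ⊆ 𝒜}) ≤ κ := by
    simp only [Cardinal.mk_prod, Cardinal.lift_id, Cardinal.mk_nat]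
    calc ℵ₀ * (ℵ₀ * #{B : Finset (Ax I) // (B : Set (Ax I)) ⊆ 𝒜}) ≤ κ * (κ * κ) :=
          mul_le_mul' hκ (mul_le_mul' hκ (mk_finsets_le hκ h𝒜))
      _ = κ := by rw [Cardinal.mul_eq_self hκ, Cardinal.mul_eq_self hκ]
  have h2 : (⨆ p : ℕ × ℕ × {B : Finset (Ax I) // (B : Set (Ax I)) ⊆ 𝒜},
      #(⋃ y, F p.1 p.2.1 p.2.2.1 y : Set (Set ℕ))) ≤ κ := by
    apply ciSup_le'
    intro p
    have h3 : (⋃ y, F p.1 p.2.1 p.2.2.1 y : Set (Set ℕ)).Countable := by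
      have h4 : (⋃ y, F p.1 p.2.1 p.2.2.1 y : Set (Set ℕ)) =
          ⋃₀ range (F p.1 p.2.1 p.2.2.1) := by
        rw [sUnion_range]
      rw [h4]
      refine (hF p.1 p.2.1 p.2.2.1).countable.sUnion ?_
      rintro _ ⟨y, rfl⟩
      exact hc _ _ _ y
    exact (Cardinal.le_aleph0_iff_set_countable.2 h3).trans hκ
  calc _ ≤ κ * κ := mul_le_mul' h1 h2
    _ = κ := Cardinal.mul_eq_self hκ

/-- the questions depend on `y` only through finitely many data -/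
def FinQ (Q : ℕ → ℕ → (ℕ → I) → Set Asg) : Prop :=
  ∀ K m, ∃ (Z : Type) (_ : Finite Z) (δ : (ℕ → I) → Z), ∀ y y', δ y = δ y' → Q K m y = Q K m y'

/-- **Closing off.** -/
theorem close {κ : Cardinal} (hκ : ℵ₀ ≤ κ) {𝒜 : Set (Ax I)} (h𝒜 : #𝒜 ≤ κ) {D : Set (Set ℕ)}
    (hD : #D ≤ κ) (Q : ℕ → ℕ → (ℕ → I) → Set Asg) (hQ : FinQ Q)
    (hnt : ∀ (K : ℕ) (B : Finset (Ax I)) (m : ℕ) (y : ℕ → I), (B : Set (Ax I)) ⊆ 𝒜 →
      ¬ Thick A D B m y (Q K m y)) :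
    ∃ D' : Set (Set ℕ), D ⊆ D' ∧ #D' ≤ κ ∧
      ∀ (K : ℕ) (B : Finset (Ax I)) (G : Finset (Set ℕ)) (N m : ℕ) (y : ℕ → I)
        (T : Finset (Set ℕ)) (σ : Finset ℕ → Set ℕ → Finset (Set ℕ)), (B : Set (Ax I)) ⊆ 𝒜 →
        (∀ i ∈ T, i ∉ D') → ∃ a ∈ HH B G m y, a ∈ Pat A N m T σ ∧ a ∈ Q K m y := by
  classical
  let P : ℕ → (Finset (Set ℕ) → Set Asg) → Set Asg → Finset (Set ℕ) → Prop := fun m Hf Q0 K0 =>
    ∀ (G : Finset (Set ℕ)) (N : ℕ) (T : Finset (Set ℕ))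
      (σ : Finset ℕ → Set ℕ → Finset (Set ℕ)), (∀ i ∈ T, i ∉ D ∧ i ∉ K0) →
      ∃ a ∈ Hf G, a ∈ Pat A N m T σ ∧ a ∈ Q0
  let kk : ℕ → (Finset (Set ℕ) → Set Asg) → Set Asg → Finset (Set ℕ) := fun m Hf Q0 =>
    if h : ∃ K0, P m Hf Q0 K0 then h.choose else ∅
  have hkk : ∀ m Hf Q0, (∃ K0, P m Hf Q0 K0) → P m Hf Q0 (kk m Hf Q0) := by
    intro m Hf Q0 h
    simp only [kk, dif_pos h]
    exact h.choose_spec
  let F : ℕ → ℕ → Finset (Ax I) → (ℕ → I) → Set (Set ℕ) := fun K m B y =>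
    (kk m (fun G => HH B G m y) (Q K m y) : Set (Set ℕ))
  let U : Set (Set ℕ) := ⋃ p : ℕ × ℕ × {B : Finset (Ax I) // (B : Set (Ax I)) ⊆ 𝒜},
    ⋃ y, F p.1 p.2.1 p.2.2.1 y
  have hU : #U ≤ κ := by
    apply small_union hκ h𝒜 F
    · intro K m B
      obtain ⟨Z, hZ, δ, hδ⟩ := hQ K m
      apply finite_range_of_factor (Z := (∀ x : B, (Fin x.1.n → Fin m) → Prop) × Z)
        (fun y => (cls B m y, δ y))
      intro y y' hy
      simp only [Prod.mk.injEq] at hy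
      have h1 : (fun G => HH B G m y) = (fun G => HH B G m y') :=
        funext fun G => HH_congr hy.1 G
      simp only [F, h1, hδ y y' hy.2]
    · intro K m B y
      exact (Finset.finite_toSet _).countable
  refine ⟨D ∪ U, subset_union_left, ?_, ?_⟩
  · refine (Cardinal.mk_union_le _ _).trans ?_
    calc #D + #U ≤ κ + κ := add_le_add hD hU
      _ = κ := Cardinal.add_eq_self hκ
  · intro K B G N m y T σ hB hT
    have h1 := hnt K B m y hB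
    have h2 : ∃ K0, P m (fun G => HH B G m y) (Q K m y) K0 := by
      unfold Thick at h1
      push Not at h1
      obtain ⟨K0, h1⟩ := h1
      refine ⟨K0, fun G N T σ hT => ?_⟩
      obtain ⟨a, ha1, ha2, ha3⟩ := h1 G N T σ hT
      exact ⟨a, ha1, ha2, ha3⟩
    refine hkk m _ _ h2 G N T σ ?_
    intro i hi
    refine ⟨fun h => hT i hi (Or.inl h), fun h => hT i hi (Or.inr ?_)⟩
    simp only [U, mem_iUnion]
    exact ⟨(K, m, ⟨B, hB⟩), y, h⟩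

end Pool.Agent.U955.EM
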