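import Pool.Agent.U955.EM.Close
import Pool.Agent.H557R3.BqoRamsey

/-!
# Deciding countably many sets for all tuples at once
-/

set_option autoImplicit false

namespace Pool.Agent.U955.EM

open Filter Set Cardinal Pool.Agent.R595.Kun

variable {I : Type} {A : Set ℕ → Set ℕ → ℕ → Set ℕ}

/-- dependence on the first `n` values only -/
def Dep {X : Type} (n : ℕ) (p : (ℕ → X) → Prop) : Prop :=
  ∀ h h' : ℕ → X, (∀ j < n, h j = h' j) → (p h ↔ p h')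

/-- the prescribed answers -/
def Qd (n : ℕ) (Z : ℕ → Set ℕ) (K m : ℕ) (ε : ℕ → (ℕ → ℕ) → Prop) : Set Asg :=
  {b | ∀ k < K, ∀ h : ℕ → ℕ, StrictMono h → (∀ j < n, h j < m) →
    (code n (Phi h b) ∈ Z k ↔ ε k h)}

theorem Qd_congr {n : ℕ} {Z : ℕ → Set ℕ} {K m : ℕ} {ε ε' : ℕ → (ℕ → ℕ) → Prop}
    (h : ∀ k < K, ∀ h : ℕ → ℕ, StrictMono h → (∀ j < n, h j < m) → (ε k h ↔ ε' k h)) :
    Qd n Z K m ε = Qd n Z K m ε' := by
  ext b
  constructor
  · intro hb k hk g hg hgm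
    rw [hb k hk g hg hgm, h k hk g hg hgm]
  · intro hb k hk g hg hgm
    rw [hb k hk g hg hgm, h k hk g hg hgm]

/-- the answers are thickly refuted -/
def Bad (A : Set ℕ → Set ℕ → ℕ → Set ℕ) (𝒜 : Set (Ax I)) (D : Set (Set ℕ)) (n : ℕ)
    (Z : ℕ → Set ℕ) (K m : ℕ) (y : ℕ → I) (ε : ℕ → (ℕ → ℕ) → Prop) : Prop :=
  ∃ B : Finset (Ax I), (B : Set (Ax I)) ⊆ 𝒜 ∧ Thick A D B m y (Qd n Z K m ε)

variable {𝒜 : Set (Ax I)} {D : Set (Set ℕ)} {n : ℕ} {Z : ℕ → Set ℕ}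

theorem Bad.congr {K m : ℕ} {y : ℕ → I} {ε ε' : ℕ → (ℕ → ℕ) → Prop}
    (h : ∀ k < K, ∀ h : ℕ → ℕ, StrictMono h → (∀ j < n, h j < m) → (ε k h ↔ ε' k h))
    (hb : Bad A 𝒜 D n Z K m y ε) : Bad A 𝒜 D n Z K m y ε' := by
  obtain ⟨B, h1, h2⟩ := hb
  rw [Qd_congr h] at h2
  exact ⟨B, h1, h2⟩

theorem Bad.lift {K m m' : ℕ} {y y' : ℕ → I} {g : ℕ → ℕ} (hg : StrictMono g)
    (hy : ∀ k < m, y k = y' (g k)) (hm : ∀ k < m, g k < m') {ε : ℕ → (ℕ → ℕ) → Prop}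
    (hb : Bad A 𝒜 D n Z K m y (fun k h => ε k (g ∘ h))) : Bad A 𝒜 D n Z K m' y' ε := by
  obtain ⟨B, h1, h2⟩ := hb
  refine ⟨B, h1, (h2.lift hg hy hm).anti ?_⟩
  intro b hb k hk h hh hhm
  rw [Phi_comp]
  exact hb k hk (g ∘ h) (hg.comp hh) fun j hj => hm _ (hhm j hj)

theorem Bad.mono {K K' m m' : ℕ} {y : ℕ → I} {ε : ℕ → (ℕ → ℕ) → Prop} (hK : K ≤ K')
    (hm : m ≤ m') (hb : Bad A 𝒜 D n Z K m y ε) : Bad A 𝒜 D n Z K' m' y ε := by
  have h1 : Bad A 𝒜 D n Z K m' y ε :=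
    Bad.lift (g := id) (y' := y) (y := y) strictMono_id (fun _ _ => rfl)
      (fun k hk => lt_of_lt_of_le hk hm) hb
  obtain ⟨B, h2, h3⟩ := h1
  exact ⟨B, h2, h3.anti fun b hb k hk => hb k (lt_of_lt_of_le hk hK)⟩

theorem stepA (hSI : SI A 𝒜 D) (K m : ℕ) (y : ℕ → I) : ∃ ε : ℕ → (ℕ → ℕ) → Prop,
    (∀ k, Dep n (ε k)) ∧ ¬ Bad A 𝒜 D n Z K m y ε := by
  obtain ⟨a, ha⟩ := exists_notThick hSI m y
    (fun a => Qd n Z K m (fun k h => code n (Phi h a) ∈ Z k))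
    (fun a k hk h hh hm => Iff.rfl) (by
      apply finite_range_of_factor (Z := Fin K → (Fin n → Fin m) → Prop)
        (fun a k g => code n (Phi (ext0 g) a) ∈ Z k)
      intro a a' haa
      apply Qd_congr
      intro k hk h hh hm
      have h1 := congrFun (congrFun haa ⟨k, hk⟩) (fun j => ⟨h j, hm j j.2⟩)
      simp only at h1
      rw [code_Phi_congr (ext0_eq hm) a, code_Phi_congr (ext0_eq hm) a', h1])
  refine ⟨fun k h => code n (Phi h a) ∈ Z k, ?_, ?_⟩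
  · intro k h h' hh
    show code n (Phi h a) ∈ Z k ↔ code n (Phi h' a) ∈ Z k
    rw [code_Phi_congr hh a]
  · rintro ⟨B, h1, h2⟩
    exact ha B h1 h2

theorem ult_agree {Λ : Type} (U : Ultrafilter Λ) (n K m : ℕ) (e : Λ → ℕ → (ℕ → ℕ) → Prop)
    (he : ∀ l k, Dep n (e l k)) : ∀ᶠ l in (U : Filter Λ), ∀ k < K, ∀ h : ℕ → ℕ,
    (∀ j < n, h j < m) → (e l k h ↔ ∀ᶠ μ in (U : Filter Λ), e μ k h) := by
  have h1 : ∀ᶠ l in (U : Filter Λ), ∀ p : Fin K × (Fin n → Fin m),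
      (e l p.1 (ext0 p.2) ↔ ∀ᶠ μ in (U : Filter Λ), e μ p.1 (ext0 p.2)) := by
    rw [Filter.eventually_all]
    intro p
    by_cases hp : ∀ᶠ μ in (U : Filter Λ), e μ p.1 (ext0 p.2)
    · filter_upwards [hp] with l hl
      exact ⟨fun _ => hp, fun _ => hl⟩
    · have hp' : ∀ᶠ μ in (U : Filter Λ), ¬ e μ p.1 (ext0 p.2) := by
        rw [← Ultrafilter.eventually_not] at hp
        exact hp
      filter_upwards [hp'] with l hl
      exact ⟨fun h => absurd h hl, fun h => absurd h hp⟩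
  filter_upwards [h1] with l hl k hk h hm
  have h2 := hl (⟨k, hk⟩, fun j => ⟨h j, hm j j.2⟩)
  have h3 : ∀ μ, e μ k h ↔ e μ k (ext0 (fun j : Fin n => (⟨h j, hm j j.2⟩ : Fin m))) :=
    fun μ => he μ k _ _ (ext0_eq hm)
  simp only at h2
  rw [h3 l, h2]
  exact Filter.eventually_congr (Filter.Eventually.of_forall fun μ => (h3 μ).symm)

theorem stepA' (hSI : SI A 𝒜 D) (y : ℕ → I) : ∃ ε : ℕ → (ℕ → ℕ) → Prop,
    (∀ k, Dep n (ε k)) ∧ ∀ K m, ¬ Bad A 𝒜 D n Z K m y ε := by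
  choose e he1 he2 using fun j : ℕ => stepA (A := A) (n := n) (Z := Z) hSI j j y
  refine ⟨fun k h => ∀ᶠ j in (hyperfilter ℕ : Filter ℕ), e j k h, ?_, ?_⟩
  · intro k h h' hh
    exact Filter.eventually_congr (Filter.Eventually.of_forall fun j => he1 j k h h' hh)
  · intro K m hb
    have h1 := ult_agree (hyperfilter ℕ) n K m e he1
    have h2 : ∀ᶠ j in (hyperfilter ℕ : Filter ℕ), max K m ≤ j := by
      have : ∀ᶠ j in (atTop : Filter ℕ), max K m ≤ j := eventually_ge_atTop _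
      exact (Nat.hyperfilter_le_atTop) this
    obtain ⟨j, hj1, hj2⟩ := (h1.and h2).exists
    apply he2 j
    refine Bad.mono ((le_max_left K m).trans hj2) ((le_max_right K m).trans hj2) ?_
    exact hb.congr fun k hk h _ hm => (hj1 k hk h hm).symm

/-- homogeneous answers for finitely many points -/
theorem stepB (hSI : SI A 𝒜 D) (Y : Finset I) (hY : Y.Nonempty) (K : ℕ) :
    ∃ κ : ℕ → (ℕ → I) → Prop, (∀ k, Dep n (κ k)) ∧
      ∀ (m : ℕ) (y : ℕ → I), (∀ j < m, y j ∈ Y) →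
        ¬ Bad A 𝒜 D n Z K m y (fun k h => κ k (y ∘ h)) := by
  classical
  have hr : 0 < Y.card := Finset.card_pos.2 hY
  obtain ⟨z0, hz0⟩ := hY
  let r := Y.card
  let e : Y ≃ Fin Y.card := Y.equivFin
  let pos : I → ℕ := fun z => if hz : z ∈ Y then (e ⟨z, hz⟩ : ℕ) else 0
  have hpos : ∀ z, pos z < r := by
    intro z
    by_cases hz : z ∈ Y
    · simp only [pos, dif_pos hz]
      exact (e ⟨z, hz⟩).2
    · simp only [pos, dif_neg hz]
      exact hr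
  let yy : ℕ → I := fun p => (e.symm ⟨p % r, Nat.mod_lt _ hr⟩ : I)
  let Gm : (ℕ → I) → (ℕ → ℕ) → ℕ → ℕ := fun y l k => l k * r + pos (y k)
  have hGm : ∀ (y : ℕ → I) (l : ℕ → ℕ), StrictMono l → StrictMono (Gm y l) := by
    intro y l hl
    apply strictMono_nat_of_lt_succ
    intro k
    have h1 : l k + 1 ≤ l (k + 1) := hl (Nat.lt_succ_self k)
    have h2 := hpos (y k)
    simp only [Gm]
    calc l k * r + pos (y k) < (l k + 1) * r := by rw [Nat.add_mul]; omega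
      _ ≤ l (k + 1) * r := Nat.mul_le_mul_right _ h1
      _ ≤ _ := Nat.le_add_right _ _
  have hyy : ∀ (y : ℕ → I) (l : ℕ → ℕ) (k : ℕ), y k ∈ Y → y k = yy (Gm y l k) := by
    intro y l k hk
    have h1 : (Gm y l k) % r = e ⟨y k, hk⟩ := by
      simp only [Gm]
      rw [Nat.add_mod, Nat.mul_mod_left, Nat.zero_add, Nat.mod_mod]
      rw [Nat.mod_eq_of_lt (hpos _)]
      simp only [pos, dif_pos hk]
    simp only [yy]
    have h2 : (⟨Gm y l k % r, Nat.mod_lt _ hr⟩ : Fin Y.card) = e ⟨y k, hk⟩ := Fin.ext h1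
    rw [h2, Equiv.symm_apply_apply]
  obtain ⟨ε, hε, hnb⟩ := stepA' (A := A) (n := n) (Z := Z) hSI yy
  let exY : (Fin n → Y) → ℕ → I := fun v j => if hj : j < n then (v ⟨j, hj⟩ : I) else z0
  let f : (ℕ → ℕ) → (Fin K → (Fin n → Y) → Prop) := fun l k v => ε k (Gm (exY v) l)
  have hf : Pool.Agent.H557R3.Bqo.LC f := by
    intro X
    refine ⟨n, fun X' hX' => ?_⟩
    funext k v
    apply propext
    apply hε k
    intro j hj
    simp only [Gm, hX' j hj]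
  obtain ⟨L, hL, i, hi⟩ := Pool.Agent.H557R3.Bqo.ramsey hf
  refine ⟨fun k y => ε k (Gm y L), ?_, ?_⟩
  · intro k y y' hyy'
    apply hε k
    intro j hj
    simp only [Gm, hyy' j hj]
  · intro m y hy hb
    have h1 : Bad A 𝒜 D n Z K m y (fun k h => ε k (Gm y L ∘ h)) := by
      refine hb.congr ?_
      intro k hk h hh hm
      let v : Fin n → Y := fun j => ⟨y (h j), hy _ (hm j j.2)⟩
      have h2 : ∀ l : ℕ → ℕ, ε k (Gm (y ∘ h) l) ↔ ε k (Gm (exY v) l) := by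
        intro l
        apply hε k
        intro j hj
        simp only [Gm, exY, v, dif_pos hj, Function.comp]
      have h3 : f (L ∘ id) = f (L ∘ h) := by rw [hi id strictMono_id, hi h hh]
      have h4 := congrFun (congrFun h3 ⟨k, hk⟩) v
      simp only [f, Function.comp_id] at h4
      have h5 : Gm (y ∘ h) (L ∘ h) = Gm y L ∘ h := rfl
      show ε k (Gm (y ∘ h) L) ↔ ε k (Gm y L ∘ h)
      rw [h2 L, h4, ← h2 (L ∘ h), h5]
    have h2 : Bad A 𝒜 D n Z K (Gm y L m) yy ε := by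
      refine Bad.lift (hGm y L hL) (fun k hk => hyy y L k (hy k hk)) ?_ h1
      intro k hk
      exact hGm y L hL hk
    exact hnb _ _ h2

/-- homogeneous answers for all points -/
theorem stepC [Nonempty I] (hSI : SI A 𝒜 D) (n : ℕ) (Z : ℕ → Set ℕ) :
    ∃ κ : ℕ → (ℕ → I) → Prop, (∀ k, Dep n (κ k)) ∧
      ∀ (K m : ℕ) (y : ℕ → I), ¬ Bad A 𝒜 D n Z K m y (fun k h => κ k (y ∘ h)) := by
  classical
  obtain ⟨z0⟩ := (inferInstance : Nonempty I)
  choose κ hκ1 hκ2 using fun l : Finset I × ℕ =>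
    stepB (A := A) (n := n) (Z := Z) hSI (insert z0 l.1) (Finset.insert_nonempty _ _) l.2
  let U : Ultrafilter (Finset I × ℕ) := Ultrafilter.of atTop
  refine ⟨fun k y => ∀ᶠ l in (U : Filter (Finset I × ℕ)), κ l k y, ?_, ?_⟩
  · intro k y y' hyy
    exact Filter.eventually_congr (Filter.Eventually.of_forall fun l => hκ1 l k y y' hyy)
  · intro K m y hb
    have h1 := ult_agree U n K m (fun l k h => κ l k (y ∘ h)) (by
      intro l k h h' hh
      apply hκ1 l k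
      intro j hj
      simp only [Function.comp, hh j hj])
    have h2 : ∀ᶠ l in (U : Filter (Finset I × ℕ)), ((Finset.range m).image y, K) ≤ l := by
      have : ∀ᶠ l in (atTop : Filter (Finset I × ℕ)), ((Finset.range m).image y, K) ≤ l :=
        eventually_ge_atTop _
      exact (Ultrafilter.of_le _) this
    obtain ⟨l, hl1, hl2⟩ := (h1.and h2).exists
    refine hκ2 l m y ?_ ?_
    · intro j hj
      exact Finset.mem_insert_of_mem
        (hl2.1 (Finset.mem_image_of_mem y (Finset.mem_range.2 hj)))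
    · refine Bad.mono hl2.2 le_rfl ?_
      exact hb.congr fun k hk h _ hm => (hl1 k hk h hm).symm

/-- the axiom deciding the `k`-th set -/
def axd (n : ℕ) (Z : ℕ → Set ℕ) (κ : ℕ → (ℕ → I) → Prop) (hκ : ∀ k, Dep n (κ k)) (k : ℕ) :
    Ax I where
  n := n
  c := κ k
  hc := hκ k
  W := fun _ => Z k
  V := (Z k)ᶜ

/-- **Deciding** countably many sets. -/
theorem decide_step [Nonempty I] {κ0 : Cardinal} (hκ0 : ℵ₀ ≤ κ0) (h𝒜 : #𝒜 ≤ κ0) (hD : #D ≤ κ0)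
    (hSI : SI A 𝒜 D) (n : ℕ) (Z : ℕ → Set ℕ) :
    ∃ (κ : ℕ → (ℕ → I) → Prop) (hκ : ∀ k, Dep n (κ k)) (D' : Set (Set ℕ)), D ⊆ D' ∧ #D' ≤ κ0 ∧
      SI A (𝒜 ∪ range (axd n Z κ hκ)) D' := by
  classical
  obtain ⟨κ, hκ, hnb⟩ := stepC hSI n Z
  obtain ⟨D', h1, h2, h3⟩ := close hκ0 h𝒜 hD
    (fun K m y => Qd n Z K m (fun k h => κ k (y ∘ h))) (by
      intro K m
      refine ⟨Fin K → (Fin n → Fin m) → Prop, inferInstance,
        fun y k g => κ k (y ∘ ext0 g), ?_⟩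
      intro y y' hyy
      apply Qd_congr
      intro k hk h hh hm
      have h1 := congrFun (congrFun hyy ⟨k, hk⟩) (fun j => ⟨h j, hm j j.2⟩)
      simp only at h1
      have h2 : ∀ y : ℕ → I, κ k (y ∘ h) ↔
          κ k (y ∘ ext0 (fun j : Fin n => (⟨h j, hm j j.2⟩ : Fin m))) := fun y =>
        hκ k _ _ fun j hj => congrArg y (ext0_eq hm j hj)
      rw [h2 y, h2 y', h1])
    (fun K B m y hB hth => hnb K m y ⟨B, hB, hth⟩)
  refine ⟨κ, hκ, D', h1, h2, ?_⟩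
  intro B' G N m y T σ hB' hT
  have hex : ∀ x : Ax I, ∃ k, x ∈ B' → x ∉ 𝒜 → x = axd n Z κ hκ k := by
    intro x
    by_cases hx : x ∈ B' ∧ x ∉ 𝒜
    · rcases hB' hx.1 with h | ⟨k, hk⟩
      · exact absurd h hx.2
      · exact ⟨k, fun _ _ => hk.symm⟩
    · exact ⟨0, fun h h' => absurd ⟨h, h'⟩ hx⟩
  choose kx hkx using hex
  obtain ⟨a, ha1, ha2, ha3⟩ := h3 (B'.sup kx + 1) (B'.filter (· ∈ 𝒜)) G N m y T σ (by
    intro x hx
    exact (Finset.mem_filter.1 (Finset.mem_coe.1 hx)).2) hT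
  refine ⟨a, ?_, ha2⟩
  intro x hx γ hγ h hh hm
  by_cases hxA : x ∈ 𝒜
  · exact ha1 x (Finset.mem_filter.2 ⟨hx, hxA⟩) γ hγ h hh hm
  · have h4 := hkx x hx hxA
    have h5 : kx x < B'.sup kx + 1 := Nat.lt_succ_of_le (Finset.le_sup hx)
    rw [h4] at hm ⊢
    have h6 := ha3 (kx x) h5 h hh hm
    exact ⟨fun hc => h6.2 hc, fun hc hz => hc (h6.1 hz)⟩

end Pool.Agent.U955.EM
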