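import Pool.Agent.U955.EM.Basic

/-!
# The initial state
-/

set_option autoImplicit false

namespace Pool.Agent.U955.EM

open Filter Set Cardinal Pool.Agent.R595.Kun

variable {I : Type} {A : Set ℕ → Set ℕ → ℕ → Set ℕ}

theorem Pat_nonempty (hA : Linked A) (N m : ℕ) (T : Finset (Set ℕ))
    (σ : Finset ℕ → Set ℕ → Finset (Set ℕ)) : (Pat A N m T σ).Nonempty := by
  classical
  have hex : ∀ (L : ℕ) (s : Finset ℕ), ∃ z, z ∈ XX A T (σ s) ∧ L ≤ z := by
    intro L s
    obtain ⟨z, hz1, hz2⟩ := (hA.indep T (σ s)).exists_gt L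
    exact ⟨z, hz1, hz2.le⟩
  choose f hf1 hf2 using hex
  obtain ⟨L, hL0, hLs⟩ : ∃ L : ℕ → ℕ, L 0 = N ∧
      ∀ c, L (c + 1) = (Finset.range m).powerset.sup (f (L c)) :=
    ⟨fun c => Nat.rec N (fun _ l => (Finset.range m).powerset.sup (f l)) c, rfl, fun c => rfl⟩
  have hle : ∀ c, ∀ s ⊆ Finset.range m, f (L c) s ≤ L (c + 1) := by
    intro c s hs
    rw [hLs]
    exact Finset.le_sup (f := f (L c)) (Finset.mem_powerset.2 hs)
  have hLm : Monotone L := monotone_nat_of_le_succ fun c =>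
    (hf2 (L c) ∅).trans (hle c ∅ (Finset.empty_subset _))
  let M : ℕ := L (m + 1)
  let a : Asg := fun s => if s ⊆ Finset.range m then f (L s.card) s else M
  have ha1 : ∀ s, s ⊆ Finset.range m → a s = f (L s.card) s := fun s hs => if_pos hs
  have ha2 : ∀ s, ¬ s ⊆ Finset.range m → a s = M := fun s hs => if_neg hs
  refine ⟨a, ?_, ?_, ?_⟩
  · intro s t hst
    by_cases ht : t ⊆ Finset.range m
    · have hs : s ⊆ Finset.range m := hst.trans ht
      rcases eq_or_ne s t with rfl | hne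
      · exact le_rfl
      · have hcard : s.card + 1 ≤ t.card := Finset.card_lt_card (hst.ssubset_of_ne hne)
        rw [ha1 s hs, ha1 t ht]
        exact (hle _ s hs).trans ((hLm hcard).trans (hf2 _ _))
    · rw [ha2 t ht]
      by_cases hs : s ⊆ Finset.range m
      · rw [ha1 s hs]
        have hc := Finset.card_le_card hs
        rw [Finset.card_range] at hc
        have h5 : L (s.card + 1) ≤ L (m + 1) := hLm (Nat.succ_le_succ hc)
        exact (hle _ s hs).trans h5
      · rw [ha2 s hs]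
  · rw [ha1 ∅ (Finset.empty_subset _)]
    have h5 : L 0 ≤ L (∅ : Finset ℕ).card := hLm (Nat.zero_le _)
    rw [hL0] at h5
    exact h5.trans (hf2 _ _)
  · intro s hs
    rw [ha1 s hs]
    exact hf1 _ _

theorem SI_empty (hA : Linked A) : SI A (∅ : Set (Ax I)) ∅ := by
  intro B G N m y T σ hB _
  obtain ⟨a, ha⟩ := Pat_nonempty hA N m T σ
  refine ⟨a, fun x hx => absurd (hB hx) (notMem_empty _), ha⟩

end Pool.Agent.U955.EM
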