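import Pool.Agent.U955.EM.Decide

/-!
# The OK step and the separation step
-/

set_option autoImplicit false

namespace Pool.Agent.U955.EM

open Filter Set Cardinal Pool.Agent.R595.Kun

variable {I : Type} {A : Set ℕ → Set ℕ → ℕ → Set ℕ} {𝒜 : Set (Ax I)} {D : Set (Set ℕ)}

/-- the axiom giving the witnesses of the OK property -/
def axo (A : Set ℕ → Set ℕ → ℕ → Set ℕ) (n : ℕ) (C : ℕ → Set ℕ) (κ : ℕ → (ℕ → I) → Prop)
    (hκ : ∀ k, Dep n (κ k)) (i : Set ℕ) : Ax I where
  n := n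
  c := fun y => ∀ k, κ k y
  hc := fun y y' h => forall_congr' fun k => hκ k y y' h
  W := fun γ => {w | ∀ b : Asg, code n b = w → ∀ k, w ∈ C k → w ∉ C (k + 1) →
    b (Finset.range n) ∈ A i γ k}
  V := univ

/-- **The OK step.** -/
theorem ok_step (hA : Linked A) (hSI : SI A 𝒜 D) {n : ℕ} {C : ℕ → Set ℕ} (hC : Antitone C)
    {κ : ℕ → (ℕ → I) → Prop} {hκ : ∀ k, Dep n (κ k)} (hax : ∀ k, axd n C κ hκ k ∈ 𝒜)
    {i : Set ℕ} (hi : i ∉ D) : SI A (insert (axo A n C κ hκ i) 𝒜) (insert i D) := by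
  classical
  intro B' G N m y T σ hB' hT
  have hiT : i ∉ T := fun h => hT i h (mem_insert i D)
  obtain ⟨a, ha1, ha2, ha3, ha4⟩ := hSI (insert (axd n C κ hκ G.card) (B'.filter (· ∈ 𝒜))) G N m y
    (insert i T) (fun s j => if j = i then G else σ s j) (by
      intro x hx
      rcases Finset.mem_insert.1 (Finset.mem_coe.1 hx) with rfl | hx
      · exact hax _
      · exact (Finset.mem_filter.1 hx).2) (by
      intro j hj
      rcases Finset.mem_insert.1 hj with rfl | hj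
      · exact hi
      · exact fun h => hT j hj (mem_insert_of_mem _ h))
  have hXX : ∀ s ⊆ Finset.range m, a s ∈ XX A T (σ s) ∧ ∀ γ ∈ G, a s ∈ A i γ G.card := by
    intro s hs
    have := ha4 s hs
    apply XX_insert (A := A) (s := T) (σ := σ s) (i := i) hiT (a := G) (z := a s)
    convert this
  refine ⟨a, ?_, ha2, ha3, fun s hs => (hXX s hs).1⟩
  intro x hx γ hγ h hh hm
  by_cases hxA : x ∈ 𝒜
  · exact ha1 x (Finset.mem_insert_of_mem (Finset.mem_filter.2 ⟨hx, hxA⟩)) γ hγ h hh hm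
  · have hx' : x = axo A n C κ hκ i := by
      rcases hB' hx with h | h
      · exact h
      · exact absurd h hxA
    subst hx'
    refine ⟨fun hc => ?_, fun _ => mem_univ _⟩
    have hcK : code n (Phi h a) ∈ C G.card :=
      (ha1 _ (Finset.mem_insert_self _ _) γ hγ h hh hm).1 (hc G.card)
    intro b hb k hk hk'
    have hkK : G.card ≤ k := by
      by_contra hcon
      push Not at hcon
      exact hk' (hC (show k + 1 ≤ G.card from hcon) hcK)
    have h1 : b (Finset.range n) = a ((Finset.range n).image h) :=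
      (code_eq.1 hb) (Finset.range n) (Finset.Subset.refl _)
    rw [h1]
    have h2 : (Finset.range n).image h ⊆ Finset.range m := by
      intro q hq
      obtain ⟨k, hk, rfl⟩ := Finset.mem_image.1 hq
      exact Finset.mem_range.2 (hm k (Finset.mem_range.1 hk))
    exact hA.mono i γ _ _ hkK ((hXX _ h2).2 γ hγ)

/-! ### separation -/

section

variable (bit : I → Set ℕ → Prop) (n : ℕ) (j : ℕ → Set ℕ) (v : ℕ → Prop) (g : ℕ → ℕ)
  (κ : ℕ → (ℕ → I) → Prop)

/-- the points differing from all `n` prescribed bits -/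
def Ucl (z : I) : Prop := ∀ k < n, ¬ (bit z (j k) ↔ v k)

/-- the tuples with the prescribed bits and an unbounded value of `g` -/
def Vcl (y : ℕ → I) : Prop := (∀ k < n, (bit (y k) (j k) ↔ v k)) ∧ ∀ N, ¬ κ N y

/-- what has to hold -/
def Qs (A : Set ℕ → Set ℕ → ℕ → Set ℕ) (i ξ : Set ℕ) (m : ℕ) (y : ℕ → I) : Set Asg :=
  {a | (∀ p < m, Ucl bit n j v (y p) → a {p} ∈ A i ξ 1) ∧
    ∀ h : ℕ → ℕ, StrictMono h → (∀ k < n, h k < m) → Vcl bit n j v κ (y ∘ h) →
      g (code n (Phi h a)) ∉ A i ξ 1}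

variable {bit n j v g κ}

theorem sep_finite (hA : Linked A) (hSI : SI A 𝒜 D) {hκ : ∀ k, Dep n (κ k)}
    (hax : ∀ N, axd n (fun N => {w | g w ≤ N}) κ hκ N ∈ 𝒜) {i : Set ℕ} (hi : i ∉ D)
    {B : Finset (Ax I)} (hB : (B : Set (Ax I)) ⊆ 𝒜) (m : ℕ) (y : ℕ → I) :
    {ξ | Thick A (insert i D) B m y (Qs bit n j v g κ A i ξ m y)}.Finite := by
  classical
  by_contra hinf
  have hinf' : {ξ | Thick A (insert i D) B m y (Qs bit n j v g κ A i ξ m y)}.Infinite := hinf
  let ξ : ℕ → Set ℕ := fun t => (hinf'.natEmbedding _ t : Set ℕ)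
  have hξinj : Function.Injective ξ := fun t t' h => (hinf'.natEmbedding _).injective
    (Subtype.ext h)
  have hξ : ∀ t, Thick A (insert i D) B m y (Qs bit n j v g κ A i (ξ t) m y) :=
    fun t => (hinf'.natEmbedding _ t).2
  let M : ℕ := Fintype.card (Fin n → Fin m)
  let R : ℕ := M + 2
  have hR : 0 < R := by omega
  -- the copies
  let Gt : ℕ → ℕ → ℕ := fun t p => p * R + (if Ucl bit n j v (y p) then t + 1 else 0)
  let yst : ℕ → I := fun q => y (q / R)
  have hoff : ∀ t < M + 1, ∀ p, (if Ucl bit n j v (y p) then t + 1 else 0) < R := by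
    intro t ht p
    split_ifs
    · omega
    · omega
  have hGt : ∀ t < M + 1, StrictMono (Gt t) := by
    intro t ht
    apply strictMono_nat_of_lt_succ
    intro p
    have h1 := hoff t ht p
    simp only [Gt]
    calc p * R + _ < (p + 1) * R := by rw [Nat.add_mul]; omega
      _ ≤ _ := Nat.le_add_right _ _
  have hyG : ∀ t < M + 1, ∀ p, y p = yst (Gt t p) := by
    intro t ht p
    have h1 := hoff t ht p
    have h2 : Gt t p / R = p := by
      simp only [Gt]
      rw [Nat.add_comm, Nat.add_mul_div_right _ _ hR, Nat.div_eq_of_lt h1, Nat.zero_add]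
    simp only [yst, h2]
  have hmG : ∀ t < M + 1, ∀ p < m, Gt t p < m * R := by
    intro t ht p hp
    have h1 := hoff t ht p
    calc Gt t p < (p + 1) * R := by simp only [Gt]; rw [Nat.add_mul]; omega
      _ ≤ m * R := Nat.mul_le_mul_right _ hp
  -- the bound
  obtain ⟨N0, hN0⟩ : ∃ N0, ∀ t < M + 1, ∀ t' < M + 1, t ≠ t' → ∀ w ∈ A i (ξ t) 1,
      w ∈ A i (ξ t') 1 → w ≤ N0 := by
    have h1 : ∀ t t' : ℕ, ∃ b, t ≠ t' → ∀ w ∈ A i (ξ t) 1, w ∈ A i (ξ t') 1 → w ≤ b := by
      intro t t'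
      by_cases htt : t = t'
      · exact ⟨0, fun h => absurd htt h⟩
      · have hne : ξ t ≠ ξ t' := fun h => htt (hξinj h)
        have hfin : (⋂ α ∈ ({ξ t, ξ t'} : Finset (Set ℕ)), A i α 1).Finite := by
          apply hA.linked
          rw [Finset.card_pair hne]
          norm_num
        obtain ⟨b, hb⟩ := hfin.bddAbove
        refine ⟨b, fun _ w hw hw' => hb ?_⟩
        simp only [mem_iInter]
        intro α hα
        rcases Finset.mem_insert.1 hα with rfl | hα
        · exact hw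
        · rw [Finset.mem_singleton] at hα
          rw [hα]
          exact hw'
    choose b hb using h1
    refine ⟨(Finset.range (M + 1)).sup fun t => (Finset.range (M + 1)).sup fun t' => b t t', ?_⟩
    intro t ht t' ht' htt w hw hw'
    refine (hb t t' htt w hw hw').trans ?_
    refine le_trans ?_ (Finset.le_sup (f := fun t => (Finset.range (M + 1)).sup fun t' => b t t')
      (Finset.mem_range.2 ht))
    exact Finset.le_sup (f := fun t' => b t t') (Finset.mem_range.2 ht')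
  -- combining the refutations
  obtain ⟨B', G', N', T, σ, hB', hT, hcomb⟩ := combine (A := A) (𝒜 := 𝒜) (D := insert i D)
    (m := m * R) (y := yst)
    (𝒬 := (fun t => Phi (Gt t) ⁻¹' (Qs bit n j v g κ A i (ξ t) m y)) '' Iio (M + 1))
    ((Set.finite_Iio _).image _) (by
      rintro _ ⟨t, ht, rfl⟩
      exact ⟨B, hB, (hξ t).lift (hGt t ht) (fun p _ => hyG t ht p) (hmG t ht)⟩)
  have hiT : i ∉ T := fun h => hT i h (mem_insert i D)
  obtain ⟨a, ha1, ha2, ha3, ha4⟩ := hSI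
    (insert (axd n (fun N => {w | g w ≤ N}) κ hκ N0) B') (insert ∅ G') N' (m * R) yst
    (insert i T) (fun s l => if l = i then {ξ (s.sup id % R - 1)} else σ s l) (by
      intro x hx
      rcases Finset.mem_insert.1 (Finset.mem_coe.1 hx) with rfl | hx
      · exact hax _
      · exact hB' hx) (by
      intro l hl
      rcases Finset.mem_insert.1 hl with rfl | hl
      · exact hi
      · exact fun h => hT l hl (mem_insert_of_mem _ h))
  have hXX : ∀ s ⊆ Finset.range (m * R), a s ∈ XX A T (σ s) ∧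
      a s ∈ A i (ξ (s.sup id % R - 1)) 1 := by
    intro s hs
    have h0 := ha4 s hs
    have h1 := XX_insert (A := A) (s := T) (σ := σ s) (i := i) hiT
      (a := {ξ (s.sup id % R - 1)}) (z := a s) (by convert h0)
    refine ⟨h1.1, ?_⟩
    have := h1.2 _ (Finset.mem_singleton_self _)
    simpa using this
  have haH : a ∈ HH B' G' (m * R) yst :=
    HH_mono (Finset.subset_insert _ _) (Finset.subset_insert _ _) _ _ ha1
  have haP : a ∈ Pat A N' (m * R) T σ := ⟨ha2, ha3, fun s hs => (hXX s hs).1⟩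
  have hfail : ∀ t : Fin (M + 1), ∃ h : ℕ → ℕ, StrictMono h ∧ (∀ k < n, h k < m) ∧
      Vcl bit n j v κ (y ∘ h) ∧ g (code n (Phi h (Phi (Gt t) a))) ∈ A i (ξ t) 1 := by
    intro t
    have h1 := hcomb a haH haP _ ⟨t, t.2, rfl⟩
    by_contra hcon
    push Not at hcon
    apply h1
    refine ⟨?_, fun h hh hm hv => hcon h hh hm hv⟩
    intro p hp hU
    have h2 : ({Gt t p} : Finset ℕ) ⊆ Finset.range (m * R) := by
      rw [Finset.singleton_subset_iff, Finset.mem_range]
      exact hmG t t.2 p hp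
    have h3 := (hXX _ h2).2
    have h4 : ({Gt t p} : Finset ℕ).sup id % R - 1 = t := by
      rw [Finset.sup_singleton, id]
      simp only [Gt, if_pos hU]
      rw [Nat.add_comm, Nat.add_mul_mod_self_right, Nat.mod_eq_of_lt (by omega)]
      omega
    rw [h4] at h3
    have h5 : Phi (Gt t) a {p} = a {Gt t p} := by
      simp [Phi]
    rw [h5]
    exact h3
  choose hs hs1 hs2 hs3 hs4 using hfail
  obtain ⟨t, t', htt, heq⟩ := Fintype.exists_ne_map_eq_of_card_lt
    (fun t : Fin (M + 1) => (fun k : Fin n => (⟨hs t k, hs2 t k k.2⟩ : Fin m))) (by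
      rw [Fintype.card_fin]
      exact Nat.lt_succ_self M)
  have hk : ∀ k < n, hs t k = hs t' k := by
    intro k hk
    have := congrFun heq ⟨k, hk⟩
    simpa using this
  have hG : ∀ k < n, (Gt t ∘ hs t) k = (Gt t' ∘ hs t') k := by
    intro k hkn
    have hnU : ∀ u : Fin (M + 1), ¬ Ucl bit n j v (y (hs u k)) := by
      intro u hU
      exact hU k hkn ((hs3 u).1 k hkn)
    simp only [Function.comp, Gt, if_neg (hnU t), if_neg (hnU t'), hk k hkn]
  have hcode : code n (Phi (hs t) (Phi (Gt t) a)) = code n (Phi (hs t') (Phi (Gt t') a)) := by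
    rw [Phi_comp, Phi_comp]
    exact code_Phi_congr hG a
  have h5 : g (code n (Phi (hs t) (Phi (Gt t) a))) ≤ N0 := by
    refine hN0 t t.2 t' t'.2 (fun h => htt (Fin.ext h)) _ (hs4 t) ?_
    rw [hcode]
    exact hs4 t'
  have h6 := (ha1 _ (Finset.mem_insert_self _ _) ∅ (Finset.mem_insert_self _ _) (Gt t ∘ hs t)
    ((hGt t t.2).comp (hs1 t)) (fun k hkn => hmG t t.2 _ (hs2 t k hkn))).2 (by
      have h7 : yst ∘ (Gt t ∘ hs t) = y ∘ hs t := by
        funext k
        exact (hyG t t.2 (hs t k)).symm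
      rw [h7]
      exact (hs3 t).2 N0)
  rw [Phi_comp] at h5
  exact h6 h5

/-- the axiom for the points -/
def axU (bit : I → Set ℕ → Prop) (n : ℕ) (j : ℕ → Set ℕ) (v : ℕ → Prop)
    (A : Set ℕ → Set ℕ → ℕ → Set ℕ) (i ξ : Set ℕ) : Ax I where
  n := 1
  c := fun y => Ucl bit n j v (y 0)
  hc := fun y y' h => by rw [h 0 Nat.zero_lt_one]
  W := fun _ => {w | ∀ b : Asg, code 1 b = w → b {0} ∈ A i ξ 1}
  V := univ

/-- the axiom for the tuples -/
def axV (bit : I → Set ℕ → Prop) (n : ℕ) (j : ℕ → Set ℕ) (v : ℕ → Prop) (g : ℕ → ℕ)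
    (κ : ℕ → (ℕ → I) → Prop) (hκ : ∀ k, Dep n (κ k))
    (A : Set ℕ → Set ℕ → ℕ → Set ℕ) (i ξ : Set ℕ) : Ax I where
  n := n
  c := Vcl bit n j v κ
  hc := fun y y' h => by
    unfold Vcl
    have h1 : (∀ k < n, (bit (y k) (j k) ↔ v k)) ↔ (∀ k < n, (bit (y' k) (j k) ↔ v k)) :=
      forall₂_congr fun k hk => by rw [h k hk]
    have h2 : (∀ N, ¬ κ N y) ↔ ∀ N, ¬ κ N y' := forall_congr' fun N => by rw [hκ N y y' h]
    rw [h1, h2]
  W := fun _ => {w | g w ∉ A i ξ 1}
  V := univ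

theorem Thick.congr_cls {B : Finset (Ax I)} {m : ℕ} {y y' : ℕ → I} (h : cls B m y = cls B m y')
    {Q : Set Asg} (ht : Thick A D B m y Q) : Thick A D B m y' Q := by
  intro K
  obtain ⟨G, N, T, σ, h1, h2⟩ := ht K
  refine ⟨G, N, T, σ, h1, ?_⟩
  rw [← HH_congr h G]
  exact h2

theorem Qs_congr {hκ : ∀ k, Dep n (κ k)} {i ξ : Set ℕ} {m : ℕ} {y y' : ℕ → I}
    (h1 : ∀ p : Fin m, Ucl bit n j v (y p) ↔ Ucl bit n j v (y' p))
    (h2 : ∀ f : Fin n → Fin m, Vcl bit n j v κ (y ∘ ext0 f) ↔ Vcl bit n j v κ (y' ∘ ext0 f)) :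
    Qs bit n j v g κ A i ξ m y = Qs bit n j v g κ A i ξ m y' := by
  have h3 : ∀ h : ℕ → ℕ, (∀ k < n, h k < m) →
      (Vcl bit n j v κ (y ∘ h) ↔ Vcl bit n j v κ (y' ∘ h)) := by
    intro h hm
    have h4 := h2 (fun k => ⟨h k, hm k k.2⟩)
    have h5 : ∀ y : ℕ → I, Vcl bit n j v κ (y ∘ h) ↔
        Vcl bit n j v κ (y ∘ ext0 (fun k : Fin n => (⟨h k, hm k k.2⟩ : Fin m))) := fun y =>
      (axV bit n j v g κ hκ A i ξ).hc _ _ fun k hk => congrArg y (ext0_eq hm k hk)
    rw [h5 y, h5 y', h4]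
  ext a
  constructor
  · rintro ⟨p1, p2⟩
    exact ⟨fun p hp hU => p1 p hp ((h1 ⟨p, hp⟩).2 hU),
      fun h hh hm hV => p2 h hh hm ((h3 h hm).2 hV)⟩
  · rintro ⟨p1, p2⟩
    exact ⟨fun p hp hU => p1 p hp ((h1 ⟨p, hp⟩).1 hU),
      fun h hh hm hV => p2 h hh hm ((h3 h hm).1 hV)⟩

/-- **The separation step.** -/
theorem sep_step {κ0 : Cardinal} (hκ0 : ℵ₀ ≤ κ0) (hκ0' : κ0 < continuum) (hA : Linked A)
    (h𝒜 : #𝒜 ≤ κ0) (hD : #D ≤ κ0) (hSI : SI A 𝒜 D) {hκ : ∀ k, Dep n (κ k)}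
    (hax : ∀ N, axd n (fun N => {w | g w ≤ N}) κ hκ N ∈ 𝒜) :
    ∃ (i ξ : Set ℕ) (D' : Set (Set ℕ)), D ⊆ D' ∧ #D' ≤ κ0 ∧
      SI A (𝒜 ∪ {axU bit n j v A i ξ, axV bit n j v g κ hκ A i ξ}) D' := by
  classical
  obtain ⟨i, hi⟩ := exists_notMem (lt_of_le_of_lt hD hκ0')
  have hD1 : #(insert i D : Set (Set ℕ)) ≤ κ0 := by
    refine (Cardinal.mk_insert_le).trans ?_
    calc #D + 1 ≤ κ0 + κ0 := add_le_add hD (Cardinal.one_le_aleph0.trans hκ0)
      _ = κ0 := Cardinal.add_eq_self hκ0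
  have hfac : ∀ (m : ℕ) (B : Finset (Ax I)) (y y' : ℕ → I),
      (cls B m y, (fun p : Fin m => Ucl bit n j v (y p)),
        (fun f : Fin n → Fin m => Vcl bit n j v κ (y ∘ ext0 f))) =
      (cls B m y', (fun p : Fin m => Ucl bit n j v (y' p)),
        (fun f : Fin n → Fin m => Vcl bit n j v κ (y' ∘ ext0 f))) →
      cls B m y = cls B m y' ∧ ∀ ξ, Qs bit n j v g κ A i ξ m y = Qs bit n j v g κ A i ξ m y' := by
    intro m B y y' h
    simp only [Prod.mk.injEq] at h
    refine ⟨h.1, fun ξ => ?_⟩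
    apply Qs_congr (hκ := hκ)
    · intro p
      exact iff_of_eq (congrFun h.2.1 p)
    · intro f
      exact iff_of_eq (congrFun h.2.2 f)
  let F : ℕ → ℕ → Finset (Ax I) → (ℕ → I) → Set (Set ℕ) := fun _ m B y =>
    if (B : Set (Ax I)) ⊆ 𝒜 then
      {ξ | Thick A (insert i D) B m y (Qs bit n j v g κ A i ξ m y)} else ∅
  have hU := small_union hκ0 h𝒜 F (by
    intro K m B
    apply finite_range_of_factor (Z := (∀ x : B, (Fin x.1.n → Fin m) → Prop) ×
      (Fin m → Prop) × ((Fin n → Fin m) → Prop))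
      (fun y => (cls B m y, (fun p : Fin m => Ucl bit n j v (y p)),
        (fun f : Fin n → Fin m => Vcl bit n j v κ (y ∘ ext0 f))))
    intro y y' hyy
    obtain ⟨h1, h2⟩ := hfac m B y y' hyy
    simp only [F]
    split_ifs with hB
    · ext ξ
      simp only [mem_ofPred_eq, h2 ξ]
      exact ⟨fun h => h.congr_cls h1, fun h => h.congr_cls h1.symm⟩
    · rfl) (by
    intro K m B y
    simp only [F]
    split_ifs with hB
    · exact (sep_finite hA hSI hax hi hB m y).countable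
    · exact countable_empty)
  obtain ⟨ξ, hξ⟩ := exists_notMem (lt_of_le_of_lt hU hκ0')
  obtain ⟨D', h1, h2, h3⟩ := close hκ0 h𝒜 hD1 (fun _ m y => Qs bit n j v g κ A i ξ m y) (by
      intro K m
      refine ⟨(Fin m → Prop) × ((Fin n → Fin m) → Prop), inferInstance,
        fun y => ((fun p : Fin m => Ucl bit n j v (y p)),
        (fun f : Fin n → Fin m => Vcl bit n j v κ (y ∘ ext0 f))), ?_⟩
      intro y y' hyy
      simp only [Prod.mk.injEq] at hyy
      apply Qs_congr (hκ := hκ)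
      · intro p
        exact iff_of_eq (congrFun hyy.1 p)
      · intro f
        exact iff_of_eq (congrFun hyy.2 f)) (by
    intro K B m y hB hth
    apply hξ
    simp only [mem_iUnion]
    refine ⟨(K, m, ⟨B, hB⟩), y, ?_⟩
    simp only [F, if_pos hB]
    exact hth)
  refine ⟨i, ξ, D', (subset_insert i D).trans h1, h2, ?_⟩
  intro B' G N m y T σ hB' hT
  obtain ⟨a, ha1, ha2, ha3⟩ := h3 0 (B'.filter (· ∈ 𝒜)) G N m y T σ (by
    intro x hx
    exact (Finset.mem_filter.1 (Finset.mem_coe.1 hx)).2) hT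
  refine ⟨a, ?_, ha2⟩
  intro x hx γ hγ h hh hm
  by_cases hxA : x ∈ 𝒜
  · exact ha1 x (Finset.mem_filter.2 ⟨hx, hxA⟩) γ hγ h hh hm
  · rcases hB' hx with h4 | h4 | h4
    · exact absurd h4 hxA
    · subst h4
      refine ⟨fun hc => ?_, fun _ => mem_univ _⟩
      intro b hb
      have h5 : b {0} = a {h 0} := by
        have := (code_eq.1 hb) {0} (by simp)
        rw [this]
        simp [Phi]
      rw [h5]
      exact ha3.1 (h 0) (hm 0 Nat.zero_lt_one) hc
    · have h4' : x = axV bit n j v g κ hκ A i ξ := h4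
      subst h4'
      exact ⟨fun hc => ha3.2 h hh hm hc, fun _ => mem_univ _⟩

end

end Pool.Agent.U955.EM
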