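import Pool.Agent.U955.EM.Tasks

/-!
# The transfinite run
-/

set_option autoImplicit false

namespace Pool.Agent.U955.EM

open Filter Set Cardinal Pool.Agent.R595.Kun

variable {I : Type} {A : Set ℕ → Set ℕ → ℕ → Set ℕ}

abbrev St (I : Type) : Type := Set (Ax I) × Set (Set ℕ)

/-- the union of the previous states -/
def lim (a : Om) (prev : (b : Om) → b < a → St I) : St I :=
  (⋃ (b : Om) (h : b < a), (prev b h).1, ⋃ (b : Om) (h : b < a), (prev b h).2)

theorem SI_of_finite {𝒜 : Set (Ax I)} {D : Set (Set ℕ)}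
    (h : ∀ B : Finset (Ax I), (B : Set (Ax I)) ⊆ 𝒜 → ∃ (𝒜' : Set (Ax I)) (D' : Set (Set ℕ)),
      (B : Set (Ax I)) ⊆ 𝒜' ∧ D' ⊆ D ∧ SI A 𝒜' D') : SI A 𝒜 D := by
  intro B G N m y T σ hB hT
  obtain ⟨𝒜', D', h1, h2, h3⟩ := h B hB
  exact h3 B G N m y T σ h1 fun i hi hi' => hT i hi (h2 hi')

theorem exists_run [Nonempty I] (bit : I → Set ℕ → Prop) (hA : Linked A) (t : Om → Tk) :
    ∃ pick : Om → St I, ∀ a, SI A (pick a).1 (pick a).2 ∧
      (∀ b, b ≤ a → (pick b).1 ⊆ (pick a).1) ∧ Res bit (t a) (pick a).1 := by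
  classical
  let κ : Om → Cardinal := fun a => max ℵ₀ #(Iio a)
  have hκ : ∀ a, ℵ₀ ≤ κ a := fun a => le_max_left _ _
  have hκ' : ∀ a, κ a < continuum := fun a =>
    max_lt Cardinal.aleph0_lt_continuum (mk_Iio_lt a)
  obtain ⟨pick, hpick⟩ := wf_choice (α := Om) (β := St I) (· < ·) wellFounded_lt
    (fun a prev s => SI A (lim a prev).1 (lim a prev).2 → #(lim a prev).1 ≤ κ a →
      #(lim a prev).2 ≤ κ a →
      (lim a prev).1 ⊆ s.1 ∧ (lim a prev).2 ⊆ s.2 ∧ #s.1 ≤ κ a ∧ #s.2 ≤ κ a ∧
      SI A s.1 s.2 ∧ Res bit (t a) s.1) (by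
      intro a prev
      by_cases h : SI A (lim a prev).1 (lim a prev).2 ∧ #(lim a prev).1 ≤ κ a ∧
        #(lim a prev).2 ≤ κ a
      · obtain ⟨𝒜', D', h1, h2, h3, h4, h5, h6⟩ :=
          exists_step bit (hκ a) (hκ' a) hA h.2.1 h.2.2 h.1 (t a)
        exact ⟨(𝒜', D'), fun _ _ _ => ⟨h1, h2, h3, h4, h5, h6⟩⟩
      · exact ⟨(∅, ∅), fun h1 h2 h3 => absurd ⟨h1, h2, h3⟩ h⟩)
  refine ⟨pick, ?_⟩
  have main : ∀ a, (SI A (pick a).1 (pick a).2 ∧ (∀ b, b < a → (pick b).1 ⊆ (pick a).1 ∧
      (pick b).2 ⊆ (pick a).2) ∧ Res bit (t a) (pick a).1) ∧ #(pick a).1 ≤ κ a ∧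
      #(pick a).2 ≤ κ a := by
    intro a
    induction a using WellFoundedLT.induction with
    | _ a ih =>
      have hgood : SI A (lim a (fun b _ => pick b)).1 (lim a (fun b _ => pick b)).2 := by
        by_cases hne : (Iio a).Nonempty
        · apply SI_of_finite
          intro B hB
          have hex : ∃ b, b < a ∧ (B : Set (Ax I)) ⊆ (pick b).1 := by
            induction B using Finset.induction_on with
            | empty =>
              obtain ⟨b, hb⟩ := hne
              exact ⟨b, hb, by simp⟩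
            | @insert x B hx ihB =>
              rw [Finset.coe_insert] at hB
              obtain ⟨b, hb, hb'⟩ := ihB ((subset_insert _ _).trans hB)
              have h1 := hB (mem_insert x _)
              simp only [lim, mem_iUnion] at h1
              obtain ⟨c, hc, hxc⟩ := h1
              rw [Finset.coe_insert]
              rcases lt_trichotomy b c with h | h | h
              · refine ⟨c, hc, insert_subset hxc (hb'.trans ((ih c hc).1.2.1 b h).1)⟩
              · subst h
                exact ⟨b, hb, insert_subset hxc hb'⟩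
              · exact ⟨b, hb, insert_subset (((ih b hb).1.2.1 c h).1 hxc) hb'⟩
          obtain ⟨b, hb, hb'⟩ := hex
          refine ⟨(pick b).1, (pick b).2, hb', ?_, (ih b hb).1.1⟩
          intro i hi
          simp only [lim, mem_iUnion]
          exact ⟨b, hb, hi⟩
        · apply SI_of_finite
          intro B hB
          refine ⟨∅, ∅, ?_, empty_subset _, SI_empty hA⟩
          intro x hx
          have h1 := hB hx
          simp only [lim, mem_iUnion] at h1
          obtain ⟨b, hb, _⟩ := h1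
          exact absurd ⟨b, hb⟩ hne
      have hb1 : ∀ {Y : Type} (f : Om → Set Y), (∀ b, b < a → #(f b) ≤ κ b) →
          #(⋃ (b : Om) (_ : b < a), f b : Set Y) ≤ κ a := by
        intro Y f hf
        have h1 : (⋃ (b : Om) (_ : b < a), f b) = ⋃ b ∈ Iio a, f b := rfl
        rw [h1]
        refine (Cardinal.mk_biUnion_le _ _).trans ?_
        have h2 : (⨆ b : Iio a, #(f b.1)) ≤ κ a := by
          apply ciSup_le'
          rintro ⟨b, hb⟩
          refine (hf b hb).trans ?_
          exact max_le_max le_rfl (Cardinal.mk_le_mk_of_subset (Iio_subset_Iio (le_of_lt hb)))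
        calc #(Iio a) * (⨆ b : Iio a, #(f b.1)) ≤ κ a * κ a :=
              mul_le_mul' (le_max_right _ _) h2
          _ = κ a := Cardinal.mul_eq_self (hκ a)
      have hc1 : #(lim a (fun b _ => pick b)).1 ≤ κ a :=
        hb1 (fun b => (pick b).1) fun b hb => (ih b hb).2.1
      have hc2 : #(lim a (fun b _ => pick b)).2 ≤ κ a :=
        hb1 (fun b => (pick b).2) fun b hb => (ih b hb).2.2
      obtain ⟨h1, h2, h3, h4, h5, h6⟩ := hpick a hgood hc1 hc2
      refine ⟨⟨h5, ?_, h6⟩, h3, h4⟩
      intro b hb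
      constructor
      · refine Subset.trans ?_ h1
        intro x hx
        simp only [lim, mem_iUnion]
        exact ⟨b, hb, hx⟩
      · refine Subset.trans ?_ h2
        intro x hx
        simp only [lim, mem_iUnion]
        exact ⟨b, hb, hx⟩
  intro a
  refine ⟨(main a).1.1, ?_, (main a).1.2.2⟩
  intro b hb
  rcases lt_or_eq_of_le hb with h | h
  · exact ((main a).1.2.1 b h).1
  · subst h
    exact Subset.rfl

/-- **The final system.** -/
theorem exists_system [Nonempty I] (bit : I → Set ℕ → Prop) : ∃ 𝒜 : Set (Ax I),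
    (∀ y, (Fr 𝒜 y).NeBot) ∧ ∀ t : Tk, Res bit t 𝒜 := by
  classical
  obtain ⟨A, hA1, hA2, hA3⟩ := exists_linked
  have hA : Linked A := ⟨hA1, hA2, hA3⟩
  have : Nonempty Tk := ⟨Tk.dec 0 fun _ => ∅⟩
  obtain ⟨e⟩ : Nonempty (Tk ↪ Om) := by
    have : #Tk ≤ #Om := mk_tk_le.trans mk_om.ge
    exact this
  obtain ⟨pick, hpick⟩ := exists_run (I := I) bit hA (Function.invFun e)
  refine ⟨⋃ a, (pick a).1, ?_, ?_⟩
  · intro y
    apply Fr_neBot
    intro B hB G N m y
    have hex : ∃ a, (B : Set (Ax I)) ⊆ (pick a).1 := by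
      induction B using Finset.induction_on with
      | empty => exact ⟨e (Tk.dec 0 fun _ => ∅), by simp⟩
      | @insert x B hx ihB =>
        rw [Finset.coe_insert] at hB
        obtain ⟨b, hb'⟩ := ihB ((subset_insert _ _).trans hB)
        have h1 := hB (mem_insert x _)
        simp only [mem_iUnion] at h1
        obtain ⟨c, hxc⟩ := h1
        rw [Finset.coe_insert]
        rcases le_total b c with h | h
        · exact ⟨c, insert_subset hxc (hb'.trans ((hpick c).2.1 b h))⟩
        · exact ⟨b, insert_subset ((hpick b).2.1 c h hxc) hb'⟩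
    obtain ⟨a, ha⟩ := hex
    obtain ⟨z, hz1, hz2, hz3, _⟩ := (hpick a).1 B G N m y ∅ (fun _ _ => ∅) ha (by simp)
    exact ⟨z, hz1, hz2, hz3⟩
  · intro t
    obtain ⟨a, ha⟩ := Function.invFun_surjective e.injective t
    have h1 := (hpick a).2.2
    rw [ha] at h1
    exact h1.mono (subset_iUnion (fun a => (pick a).1) a)

end Pool.Agent.U955.EM
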