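import Pool.Agent.U955.EM.OkSep
import Pool.Agent.U955.EM.Init

/-!
# The filters, the tasks, one step
-/

set_option autoImplicit false

namespace Pool.Agent.U955.EM

open Filter Set Cardinal Pool.Agent.R595.Kun

variable {I : Type} {A : Set ℕ → Set ℕ → ℕ → Set ℕ} {𝒜 : Set (Ax I)} {D : Set (Set ℕ)}

/-- monotone assignments with large values -/
def Mo (N : ℕ) : Set Asg := {a | Monotone a ∧ N ≤ a ∅}

theorem HH_mono_m (B : Finset (Ax I)) (G : Finset (Set ℕ)) {m m' : ℕ} (hm : m ≤ m')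
    (y : ℕ → I) : HH B G m' y ⊆ HH B G m y :=
  fun _ ha x hx γ hγ h hh hhm => ha x hx γ hγ h hh fun k hk => lt_of_lt_of_le (hhm k hk) hm

/-- the filter of the sequence `y` -/
def Fr (𝒜 : Set (Ax I)) (y : ℕ → I) : Filter Asg where
  sets := {S | ∃ (B : Finset (Ax I)) (G : Finset (Set ℕ)) (N m : ℕ), (B : Set (Ax I)) ⊆ 𝒜 ∧
    HH B G m y ∩ Mo N ⊆ S}
  univ_sets := ⟨∅, ∅, 0, 0, by simp, subset_univ _⟩
  sets_of_superset := by
    rintro S T ⟨B, G, N, m, h1, h2⟩ hST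
    exact ⟨B, G, N, m, h1, h2.trans hST⟩
  inter_sets := by
    classical
    rintro S T ⟨B, G, N, m, h1, h2⟩ ⟨B', G', N', m', h1', h2'⟩
    refine ⟨B ∪ B', G ∪ G', max N N', max m m', ?_, ?_⟩
    · rw [Finset.coe_union]
      exact union_subset h1 h1'
    · rintro a ⟨ha, hm, hN⟩
      refine ⟨h2 ⟨?_, hm, (le_max_left _ _).trans hN⟩, h2' ⟨?_, hm, (le_max_right _ _).trans hN⟩⟩
      · exact HH_mono Finset.subset_union_left Finset.subset_union_left m y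
          (HH_mono_m _ _ (le_max_left m m') y ha)
      · exact HH_mono Finset.subset_union_right Finset.subset_union_right m' y
          (HH_mono_m _ _ (le_max_right m m') y ha)

theorem mem_Fr {y : ℕ → I} {S : Set Asg} : S ∈ Fr 𝒜 y ↔ ∃ (B : Finset (Ax I))
    (G : Finset (Set ℕ)) (N m : ℕ), (B : Set (Ax I)) ⊆ 𝒜 ∧ HH B G m y ∩ Mo N ⊆ S := Iff.rfl

theorem Fr_anti {𝒜' : Set (Ax I)} (h : 𝒜 ⊆ 𝒜') (y : ℕ → I) {S : Set Asg} (hS : S ∈ Fr 𝒜 y) :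
    S ∈ Fr 𝒜' y := by
  obtain ⟨B, G, N, m, h1, h2⟩ := hS
  exact ⟨B, G, N, m, h1.trans h, h2⟩

theorem Mo_mem (N : ℕ) (y : ℕ → I) : Mo N ∈ Fr 𝒜 y :=
  ⟨∅, ∅, N, 0, by simp, inter_subset_right⟩

theorem Fr_neBot (hfin : ∀ B : Finset (Ax I), (B : Set (Ax I)) ⊆ 𝒜 →
    ∀ G N m y, (HH B G m y ∩ Mo N).Nonempty) (y : ℕ → I) : (Fr 𝒜 y).NeBot := by
  rw [← Filter.forall_mem_nonempty_iff_neBot]
  rintro S ⟨B, G, N, m, h1, h2⟩
  exact (hfin B h1 G N m y).mono h2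

theorem Phi_id (a : Asg) : Phi id a = a := by
  funext s
  simp [Phi]

theorem sat_mem {x : Ax I} (hx : x ∈ 𝒜) (γ : Set ℕ) (y : ℕ → I) : {a | x.sat γ y a} ∈ Fr 𝒜 y := by
  refine ⟨{x}, {γ}, 0, x.n, by simpa using hx, ?_⟩
  rintro a ⟨ha, _⟩
  have h1 := ha x (Finset.mem_singleton_self _) γ (Finset.mem_singleton_self _) id strictMono_id
    (fun k hk => hk)
  rw [Phi_id] at h1
  exact h1

theorem tendsto_Phi {y y' : ℕ → I} {g : ℕ → ℕ} (hg : StrictMono g) (hy : ∀ k, y k = y' (g k)) :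
    Tendsto (Phi g) (Fr 𝒜 y') (Fr 𝒜 y) := by
  rintro S ⟨B, G, N, m, h1, h2⟩
  refine ⟨B, G, N, g m, h1, ?_⟩
  rintro a ⟨ha, hm, hN⟩
  apply h2
  refine ⟨HH_lift hg (fun k _ => hy k) (fun k hk => hg hk) ha, Phi_monotone hm, ?_⟩
  simpa [Phi] using hN

/-! ### the tasks -/

/-- the tasks -/
inductive Tk : Type
  | dec (n : ℕ) (Z : ℕ → Set ℕ) : Tk
  | ok (n : ℕ) (C : ℕ → Set ℕ) : Tk
  | sep (n : ℕ) (j : ℕ → Set ℕ) (V : Set ℕ) (g : ℕ → ℕ) : Tk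

theorem mk_tk_le : #Tk ≤ continuum := by
  let e : Tk → (ℕ × (ℕ → Set ℕ)) ⊕ (ℕ × (ℕ → Set ℕ)) ⊕
      (ℕ × (ℕ → Set ℕ) × Set ℕ × (ℕ → ℕ)) := fun t =>
    match t with
    | Tk.dec n Z => Sum.inl (n, Z)
    | Tk.ok n C => Sum.inr (Sum.inl (n, C))
    | Tk.sep n j V g => Sum.inr (Sum.inr (n, j, V, g))
  have he : Function.Injective e := by
    intro t t' h
    cases t <;> cases t' <;> simp [e] at h ⊢ <;> exact h
  refine (Cardinal.mk_le_of_injective he).trans ?_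
  have h1 : #(ℕ → Set ℕ) = continuum := by simp
  have h2 : #(ℕ → ℕ) = continuum := by simp
  have h3 : #(Set ℕ) = continuum := by simp
  simp only [mk_sum, mk_prod, lift_id, h1, h2, h3, mk_nat]
  simp

variable (bit : I → Set ℕ → Prop)

/-- the task is fulfilled -/
def Res (t : Tk) (𝒜 : Set (Ax I)) : Prop :=
  match t with
  | Tk.dec n Z => ∀ k, ∃ κ : (ℕ → I) → Prop, Dep n κ ∧ ∀ y,
      (κ y → code n ⁻¹' Z k ∈ Fr 𝒜 y) ∧ (¬ κ y → code n ⁻¹' (Z k)ᶜ ∈ Fr 𝒜 y)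
  | Tk.ok n C => Antitone C → ∀ y, (∃ k, code n ⁻¹' (C k)ᶜ ∈ Fr 𝒜 y) ∨
      ∃ E : Set ℕ → Set ℕ, (∀ γ, code n ⁻¹' (E γ) ∈ Fr 𝒜 y) ∧
        ∀ a : Finset (Set ℕ), a.Nonempty → ((⋂ γ ∈ a, E γ) \ C a.card).Finite
  | Tk.sep n j V g => ∃ L : Set ℕ, ∀ y : ℕ → I, (∀ k < n, (bit (y k) (j k) ↔ k ∈ V)) →
      (∃ N, code n ⁻¹' {w | g w ≤ N} ∈ Fr 𝒜 y) ∨
      (code n ⁻¹' {w | g w ∉ L} ∈ Fr 𝒜 y ∧
        ∀ z : ℕ → I, (∀ k < n, ¬ (bit (z 0) (j k) ↔ k ∈ V)) → {a | a {0} ∈ L} ∈ Fr 𝒜 z)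

variable {bit}

theorem Res.mono {t : Tk} {𝒜' : Set (Ax I)} (h : Res bit t 𝒜) (hs : 𝒜 ⊆ 𝒜') : Res bit t 𝒜' := by
  cases t with
  | dec n Z =>
    intro k
    obtain ⟨κ, h1, h2⟩ := h k
    exact ⟨κ, h1, fun y => ⟨fun hc => Fr_anti hs y ((h2 y).1 hc),
      fun hc => Fr_anti hs y ((h2 y).2 hc)⟩⟩
  | ok n C =>
    intro hC y
    rcases h hC y with ⟨k, hk⟩ | ⟨E, h1, h2⟩
    · exact Or.inl ⟨k, Fr_anti hs y hk⟩
    · exact Or.inr ⟨E, fun γ => Fr_anti hs y (h1 γ), h2⟩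
  | sep n j V g =>
    obtain ⟨L, hL⟩ := h
    refine ⟨L, fun y hy => ?_⟩
    rcases hL y hy with ⟨N, hN⟩ | ⟨h1, h2⟩
    · exact Or.inl ⟨N, Fr_anti hs y hN⟩
    · exact Or.inr ⟨Fr_anti hs y h1, fun z hz => Fr_anti hs z (h2 z hz)⟩

theorem finite_codes (n N : ℕ) : {w | ∃ b : Asg, (∀ s ⊆ Finset.range n, b s ≤ N) ∧
    code n b = w}.Finite := by
  classical
  have h1 : (range (fun b : {b : Asg // ∀ s ⊆ Finset.range n, b s ≤ N} => code n b.1)).Finite := by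
    apply finite_range_of_factor (Z := (Finset.range n).powerset → Fin (N + 1))
      (fun b s => ⟨b.1 s.1, Nat.lt_succ_of_le (b.2 s.1 (Finset.mem_powerset.1 s.2))⟩)
    intro b b' h
    rw [code_eq]
    intro s hs
    have := congrFun h ⟨s, Finset.mem_powerset.2 hs⟩
    simpa using this
  refine h1.subset ?_
  rintro _ ⟨b, hb, rfl⟩
  exact ⟨⟨b, hb⟩, rfl⟩

theorem axd_pos {n : ℕ} {Z : ℕ → Set ℕ} {κ : ℕ → (ℕ → I) → Prop} {hκ : ∀ k, Dep n (κ k)} {k : ℕ}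
    (h : axd n Z κ hκ k ∈ 𝒜) {y : ℕ → I} (hc : κ k y) : code n ⁻¹' Z k ∈ Fr 𝒜 y := by
  filter_upwards [sat_mem h ∅ y] with a ha
  exact ha.1 hc

theorem axd_neg {n : ℕ} {Z : ℕ → Set ℕ} {κ : ℕ → (ℕ → I) → Prop} {hκ : ∀ k, Dep n (κ k)} {k : ℕ}
    (h : axd n Z κ hκ k ∈ 𝒜) {y : ℕ → I} (hc : ¬ κ k y) : code n ⁻¹' (Z k)ᶜ ∈ Fr 𝒜 y := by
  filter_upwards [sat_mem h ∅ y] with a ha
  exact ha.2 hc

theorem res_ok (hA : Linked A) {n : ℕ} {C : ℕ → Set ℕ} (hC : Antitone C)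
    {κ : ℕ → (ℕ → I) → Prop} {hκ : ∀ k, Dep n (κ k)} (hax : ∀ k, axd n C κ hκ k ∈ 𝒜)
    {i : Set ℕ} (hi : axo A n C κ hκ i ∈ 𝒜) : Res bit (Tk.ok n C) 𝒜 := by
  classical
  intro _ y
  by_cases hc : ∀ k, κ k y
  swap
  · push Not at hc
    obtain ⟨k, hk⟩ := hc
    exact Or.inl ⟨k, axd_neg (hax k) hk⟩
  right
  refine ⟨fun γ => {w | w ∈ C 0 ∧ (∃ b : Asg, Monotone b ∧ code n b = w) ∧
    ∀ b : Asg, code n b = w → ∀ k, w ∈ C k → w ∉ C (k + 1) → b (Finset.range n) ∈ A i γ k},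
    fun γ => ?_, ?_⟩
  · filter_upwards [axd_pos (hax 0) (hc 0), sat_mem hi γ y, Mo_mem 0 y] with a h1 h2 h3
    exact ⟨h1, ⟨a, h3.1, rfl⟩, h2.1 hc⟩
  · intro a ha
    obtain ⟨γ0, hγ0⟩ := ha
    have hfin : (⋃ m ∈ Finset.range a.card, ⋂ α ∈ a, A i α m).Finite := by
      apply Set.Finite.biUnion (Finset.finite_toSet _)
      intro m hm
      exact hA.linked i m a (Finset.mem_range.1 hm)
    obtain ⟨N, hN⟩ := hfin.bddAbove
    refine (finite_codes n N).subset ?_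
    rintro w ⟨hw1, hw2⟩
    simp only [mem_iInter] at hw1
    obtain ⟨h0, ⟨b, hbm, hbw⟩, _⟩ := hw1 γ0 hγ0
    -- the last `m` with `w ∈ C m`
    have hex : ∃ m, w ∉ C m := ⟨_, hw2⟩
    have hn : w ∉ C (Nat.find hex) := Nat.find_spec hex
    have hn0 : Nat.find hex ≠ 0 := by
      intro h'
      rw [h'] at hn
      exact hn h0
    obtain ⟨m, hm⟩ := Nat.exists_eq_succ_of_ne_zero hn0
    have hm1 : w ∈ C m := by
      by_contra hcon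
      have := Nat.find_min' hex hcon
      omega
    have hm2 : w ∉ C (m + 1) := by
      rw [hm] at hn
      exact hn
    have hmlt : m < a.card := by
      have h3 : Nat.find hex ≤ a.card := Nat.find_min' hex hw2
      omega
    have hbN : b (Finset.range n) ≤ N := by
      apply hN
      simp only [mem_iUnion, mem_iInter]
      exact ⟨m, Finset.mem_range.2 hmlt, fun α hα => (hw1 α hα).2.2 b hbw m hm1 hm2⟩
    exact ⟨b, fun s hs => (hbm hs).trans hbN, hbw⟩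

theorem mk_insert_le' {κ0 : Cardinal} (hκ0 : ℵ₀ ≤ κ0) {X : Type} {S : Set X} (hS : #S ≤ κ0)
    (x : X) : #(insert x S : Set X) ≤ κ0 := by
  refine (Cardinal.mk_insert_le).trans ?_
  calc #S + 1 ≤ κ0 + κ0 := add_le_add hS (Cardinal.one_le_aleph0.trans hκ0)
    _ = κ0 := Cardinal.add_eq_self hκ0

theorem mk_union_le' {κ0 : Cardinal} (hκ0 : ℵ₀ ≤ κ0) {X : Type} {S S' : Set X} (hS : #S ≤ κ0)
    (hS' : #S' ≤ κ0) : #(S ∪ S' : Set X) ≤ κ0 := by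
  refine (Cardinal.mk_union_le _ _).trans ?_
  calc #S + #S' ≤ κ0 + κ0 := add_le_add hS hS'
    _ = κ0 := Cardinal.add_eq_self hκ0

/-- **One step.** -/
theorem exists_step [Nonempty I] (bit : I → Set ℕ → Prop) {κ0 : Cardinal} (hκ0 : ℵ₀ ≤ κ0)
    (hκ0' : κ0 < continuum) (hA : Linked A) (h𝒜 : #𝒜 ≤ κ0) (hD : #D ≤ κ0) (hSI : SI A 𝒜 D)
    (t : Tk) : ∃ (𝒜' : Set (Ax I)) (D' : Set (Set ℕ)), 𝒜 ⊆ 𝒜' ∧ D ⊆ D' ∧ #𝒜' ≤ κ0 ∧ #D' ≤ κ0 ∧
      SI A 𝒜' D' ∧ Res bit t 𝒜' := by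
  have hdec : ∀ (n : ℕ) (Z : ℕ → Set ℕ), ∃ (κ : ℕ → (ℕ → I) → Prop) (hκ : ∀ k, Dep n (κ k))
      (𝒜' : Set (Ax I)) (D' : Set (Set ℕ)), 𝒜 ⊆ 𝒜' ∧ D ⊆ D' ∧ #𝒜' ≤ κ0 ∧ #D' ≤ κ0 ∧
      SI A 𝒜' D' ∧ ∀ k, axd n Z κ hκ k ∈ 𝒜' := by
    intro n Z
    obtain ⟨κ, hκ, D', h1, h2, h3⟩ := decide_step hκ0 h𝒜 hD hSI n Z
    refine ⟨κ, hκ, 𝒜 ∪ range (axd n Z κ hκ), D', subset_union_left, h1, ?_, h2, h3,
      fun k => Or.inr ⟨k, rfl⟩⟩
    apply mk_union_le' hκ0 h𝒜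
    have h4 : (range (axd n Z κ hκ)).Countable := countable_range _
    exact (Cardinal.le_aleph0_iff_set_countable.2 h4).trans hκ0
  cases t with
  | dec n Z =>
    obtain ⟨κ, hκ, 𝒜', D', h1, h2, h3, h4, h5, h6⟩ := hdec n Z
    exact ⟨𝒜', D', h1, h2, h3, h4, h5, fun k => ⟨κ k, hκ k, fun y =>
      ⟨fun hc => axd_pos (h6 k) hc, fun hc => axd_neg (h6 k) hc⟩⟩⟩
  | ok n C =>
    by_cases hC : Antitone C
    · obtain ⟨κ, hκ, 𝒜', D', h1, h2, h3, h4, h5, h6⟩ := hdec n C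
      obtain ⟨i, hi⟩ := exists_notMem (lt_of_le_of_lt h4 hκ0')
      refine ⟨insert (axo A n C κ hκ i) 𝒜', insert i D', h1.trans (subset_insert _ _),
        h2.trans (subset_insert _ _), mk_insert_le' hκ0 h3 _, mk_insert_le' hκ0 h4 _,
        ok_step hA h5 hC h6 hi, ?_⟩
      exact res_ok hA hC (hκ := hκ) (fun k => mem_insert_of_mem _ (h6 k)) (mem_insert _ _)
    · exact ⟨𝒜, D, Subset.rfl, Subset.rfl, h𝒜, hD, hSI, fun h => absurd h hC⟩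
  | sep n j V g =>
    obtain ⟨κ, hκ, 𝒜', D', h1, h2, h3, h4, h5, h6⟩ := hdec n (fun N => {w | g w ≤ N})
    obtain ⟨i, ξ, D'', k1, k2, k3⟩ := sep_step (bit := bit) (j := j) (v := fun k => k ∈ V)
      hκ0 hκ0' hA h3 h4 h5 (hκ := hκ) h6
    refine ⟨_, D'', h1.trans subset_union_left, h2.trans k1, ?_, k2, k3, A i ξ 1, ?_⟩
    · apply mk_union_le' hκ0 h3
      exact (Cardinal.le_aleph0_iff_set_countable.2
        ((Set.finite_singleton _).insert _).countable).trans hκ0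
    · intro y hy
      by_cases hc : ∃ N, κ N y
      · obtain ⟨N, hN⟩ := hc
        exact Or.inl ⟨N, Fr_anti subset_union_left y (axd_pos (h6 N) hN)⟩
      · push Not at hc
        right
        constructor
        · have hmem : axV bit n j (fun k => k ∈ V) g κ hκ A i ξ ∈
              𝒜' ∪ {axU bit n j (fun k => k ∈ V) A i ξ, axV bit n j (fun k => k ∈ V) g κ hκ A i ξ} :=
            Or.inr (Or.inr rfl)
          filter_upwards [sat_mem hmem ∅ y] with a ha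
          exact ha.1 ⟨hy, hc⟩
        · intro z hz
          have hmem : axU bit n j (fun k => k ∈ V) A i ξ ∈
              𝒜' ∪ {axU bit n j (fun k => k ∈ V) A i ξ, axV bit n j (fun k => k ∈ V) g κ hκ A i ξ} :=
            Or.inr (Or.inl rfl)
          filter_upwards [sat_mem hmem ∅ z] with a ha
          exact ha.1 hz a rfl

end Pool.Agent.U955.EM
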